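import Mathlib
import Pool.Agent.H504.CF.Group

/-!
# Finite abelian groups: a multiple of `1` is an integral combination of the sums over the subgroups
with cyclic quotients
-/

set_option autoImplicit false
set_option linter.unusedSectionVars false

namespace Pool.Agent.H504.CV

open Pool.Agent.H504.CF

/-- The product of `|A_p| / p` over the primes `p` for which the `p`-part `A_p` of the finite abelian
group `A` is not cyclic, that is, for which there are more than `p` elements `a` with `a ^ p = 1`. -/
noncomputable def cexp (A : Type) [Group A] : ℕ :=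
  ∏ p ∈ (Nat.card A).primeFactors,
    if p < Nat.card {a : A // a ^ p = 1} then p ^ ((Nat.card A).factorization p - 1) else 1

open Classical in
/-- The indicator function of a subgroup. -/
noncomputable def ind {A : Type} [Group A] (B : Subgroup A) : A → ℤ := fun a => if a ∈ B then 1 else 0

/-- The integral combinations of the indicator functions of the subgroups with cyclic quotient. -/
def S (A : Type) [CommGroup A] : AddSubgroup (A → ℤ) :=
  AddSubgroup.closure {g | ∃ B : Subgroup A, IsCyclic (A ⧸ B) ∧ g = ind B}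

section

variable {A : Type} [CommGroup A]

lemma ind_mem {B : Subgroup A} (h : IsCyclic (A ⧸ B)) : ind B ∈ S A :=
  AddSubgroup.subset_closure ⟨B, h, rfl⟩

lemma comp_mem (N : Subgroup A) {g : A ⧸ N → ℤ} (hg : g ∈ S (A ⧸ N)) :
    (fun a : A => g (QuotientGroup.mk a)) ∈ S A := by
  induction hg using AddSubgroup.closure_induction with
  | mem g h =>
    obtain ⟨B, hB, rfl⟩ := h
    refine AddSubgroup.subset_closure ⟨B.comap (QuotientGroup.mk' N), ?_, rfl⟩
    let f : A →* (A ⧸ N) ⧸ B := (QuotientGroup.mk' B).comp (QuotientGroup.mk' N)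
    have hf : B.comap (QuotientGroup.mk' N) = f.ker := by
      ext x
      rw [Subgroup.mem_comap, MonoidHom.mem_ker]
      exact (QuotientGroup.eq_one_iff (N := B) (QuotientGroup.mk' N x)).symm
    rw [hf]
    exact isCyclic_of_injective (QuotientGroup.kerLift f) (QuotientGroup.kerLift_injective f)
  | zero => exact zero_mem _
  | add a b _ _ ha hb => exact add_mem ha hb
  | neg a _ ha => exact neg_mem ha

variable [Finite A]

lemma isCyclic_of_thin (h : ∀ p : ℕ, p.Prime → Nat.card {a : A // a ^ p = 1} ≤ p) : IsCyclic A := by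
  classical
  have := Fintype.ofFinite A
  have key : ∀ n : ℕ, 0 < n → Nat.card {a : A // a ^ n = 1} ≤ n := by
    intro n
    induction n using Nat.recOnMul with
    | zero => exact fun h => absurd h (lt_irrefl 0)
    | one =>
      intro _
      rw [Finite.card_le_one_iff_subsingleton]
      exact ⟨fun a b => Subtype.ext (by
        have h1 := a.2
        have h2 := b.2
        rw [pow_one] at h1 h2
        rw [h1, h2])⟩
    | prime p hp => exact fun _ => h p hp
    | mul a b iha ihb =>
      intro hab
      have ha : 0 < a := Nat.pos_of_ne_zero (by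
        rintro rfl
        simp at hab)
      have hb : 0 < b := Nat.pos_of_ne_zero (by
        rintro rfl
        simp at hab)
      let T : Subgroup A := (powMonoidHom (a * b) : A →* A).ker
      let f : T →* A := (powMonoidHom a : A →* A).comp T.subtype
      have hT : Nat.card {x : A // x ^ (a * b) = 1} = Nat.card T := rfl
      have h1 : Nat.card T = Nat.card f.range * Nat.card f.ker := by
        rw [← Subgroup.index_ker]
        rw [mul_comm]
        exact (Subgroup.card_mul_index f.ker).symm
      have h2 : Nat.card f.ker ≤ a := by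
        refine le_trans ?_ (iha ha)
        refine Nat.card_le_card_of_injective
          (fun x : f.ker => (⟨((x : T) : A), ?_⟩ : {x : A // x ^ a = 1})) ?_
        · exact x.2
        · intro x y hxy
          apply Subtype.ext
          apply Subtype.ext
          have h2 := congrArg (fun z : {x : A // x ^ a = 1} => (z : A)) hxy
          exact h2
      have h3 : Nat.card f.range ≤ b := by
        refine le_trans ?_ (ihb hb)
        refine Nat.card_le_card_of_injective
          (fun x : f.range => (⟨(x : A), ?_⟩ : {x : A // x ^ b = 1})) ?_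
        · obtain ⟨y, hy⟩ := x.2
          rw [← hy]
          change ((y : A) ^ a) ^ b = 1
          rw [← pow_mul]
          exact y.2
        · intro x y hxy
          apply Subtype.ext
          have h2 := congrArg (fun z : {x : A // x ^ b = 1} => (z : A)) hxy
          exact h2
      rw [hT, h1, mul_comm]
      exact Nat.mul_le_mul h2 h3
  refine isCyclic_of_card_pow_eq_one_le fun n hn => ?_
  have h1 := key n hn
  rw [Nat.card_eq_fintype_card, Fintype.card_subtype] at h1
  exact h1

/-- the elements killed by `l` -/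
def tor (A : Type) [CommGroup A] (l : ℕ) : Subgroup A := (powMonoidHom l : A →* A).ker

lemma mem_tor {l : ℕ} {a : A} : a ∈ tor A l ↔ a ^ l = 1 := Iff.rfl

lemma sq_dvd_tor {l : ℕ} (hl : l.Prime) (h : l < Nat.card (tor A l)) : l * l ∣ Nat.card (tor A l) := by
  have : Fact l.Prime := ⟨hl⟩
  have hp : IsPGroup l (tor A l) := by
    intro x
    refine ⟨1, ?_⟩
    rw [pow_one]
    apply Subtype.ext
    exact x.2
  obtain ⟨n, hn⟩ := IsPGroup.iff_card.mp hp
  rw [hn] at h ⊢
  have h1 : 2 ≤ n := by
    by_contra h2
    have h3 : n = 0 ∨ n = 1 := by omega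
    rcases h3 with rfl | rfl
    · rw [pow_zero] at h
      exact absurd h (not_lt.mpr hl.one_lt.le)
    · rw [pow_one] at h
      exact lt_irrefl _ h
  obtain ⟨k, rfl⟩ := Nat.exists_eq_add_of_le h1
  exact ⟨l ^ k, by rw [pow_add, pow_two]⟩

lemma exists_sub {l : ℕ} (hl : l.Prime) (h : l < Nat.card (tor A l)) :
    ∃ H : Subgroup A, Nat.card H = l * l ∧ ¬ IsCyclic H := by
  have : Fact l.Prime := ⟨hl⟩
  obtain ⟨H, hH⟩ := Sylow.exists_subgroup_card_pow_prime (G := tor A l) l (n := 2)
    (by rw [pow_two]; exact sq_dvd_tor hl h)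
  have e := Subgroup.equivMapOfInjective H (tor A l).subtype Subtype.val_injective
  refine ⟨H.map (tor A l).subtype, ?_, fun hc => ?_⟩
  · rw [← Nat.card_congr e.toEquiv, hH, pow_two]
  · obtain ⟨g, hg⟩ := hc.exists_generator
    have h1 : orderOf g = l * l := by
      rw [orderOf_eq_card_of_forall_mem_zpowers hg, ← Nat.card_congr e.toEquiv, hH, pow_two]
    have h2 : g ^ l = 1 := by
      apply Subtype.ext
      obtain ⟨x, -, hx⟩ := g.2
      change (g : A) ^ l = 1
      rw [← hx]
      exact x.2
    have h3 := orderOf_dvd_of_pow_eq_one h2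
    rw [h1] at h3
    have h4 := Nat.le_of_dvd hl.pos h3
    nlinarith [hl.two_le]

/-- the basic relation -/
lemma basic_rel {H : Subgroup A} {𝒞 : Finset (Subgroup A)} (h𝒞 : IsPartition H 𝒞) {l : ℕ}
    (hc : 𝒞.card = l + 1) : (l : ℤ) • ind (⊥ : Subgroup A) = ∑ P ∈ 𝒞, ind P - ind H := by
  classical
  have := Fintype.ofFinite A
  funext a
  rw [Pi.smul_apply, Pi.sub_apply, Finset.sum_apply]
  have h1 : ∑ P ∈ 𝒞, ind P a = ((𝒞.filter fun C => a ∈ C).card : ℤ) := by
    rw [Finset.card_filter]
    push_cast
    exact Finset.sum_congr rfl fun P _ => by simp only [ind]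
  rw [h1, count_eq h𝒞]
  simp only [ind, Subgroup.mem_bot, hc, smul_eq_mul]
  by_cases ha : a = 1
  · subst ha
    rw [if_pos rfl, if_pos rfl, if_pos H.one_mem]
    push_cast
    ring
  · rw [if_neg ha, if_neg ha]
    split_ifs <;> simp

lemma card_quot (N : Subgroup A) : Nat.card A = Nat.card (A ⧸ N) * Nat.card N :=
  Subgroup.card_eq_card_quotient_mul_card_subgroup N

lemma tor_quot (N : Subgroup A) {p : ℕ} (hp : (Nat.card N).Coprime p) :
    Nat.card (tor (A ⧸ N) p) ≤ Nat.card (tor A p) := by
  refine Nat.card_le_card_of_surjective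
    (fun x : tor A p => (⟨QuotientGroup.mk (x : A), ?_⟩ : tor (A ⧸ N) p)) ?_
  · rw [mem_tor, ← QuotientGroup.mk_pow, mem_tor.mp x.2]
    rfl
  · rintro ⟨y, hy⟩
    obtain ⟨a, rfl⟩ := QuotientGroup.mk_surjective y
    have h1 : a ^ p ∈ N := by
      rw [mem_tor, ← QuotientGroup.mk_pow] at hy
      exact (QuotientGroup.eq_one_iff _).mp hy
    obtain ⟨n, hn⟩ := (powCoprime hp).surjective ⟨a ^ p, h1⟩
    have h2 : (n : A) ^ p = a ^ p := congrArg Subtype.val hn
    refine ⟨⟨a * (n : A)⁻¹, ?_⟩, ?_⟩
    · rw [mem_tor, mul_pow, inv_pow, h2, mul_inv_cancel]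
    · apply Subtype.ext
      change (QuotientGroup.mk (a * (n : A)⁻¹) : A ⧸ N) = QuotientGroup.mk a
      rw [QuotientGroup.eq]
      rw [mul_inv_rev, inv_inv, mul_assoc, inv_mul_cancel, mul_one]
      exact n.2

/-- the factor at `p` -/
noncomputable def fac (A : Type) [CommGroup A] (p : ℕ) : ℕ :=
  if p < Nat.card (tor A p) then p ^ ((Nat.card A).factorization p - 1) else 1

lemma cexp_eq (A : Type) [CommGroup A] {T : Finset ℕ} (hT : (Nat.card A).primeFactors ⊆ T) :
    cexp A = ∏ p ∈ T, fac A p := by
  refine Finset.prod_subset hT fun p _ hp => ?_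
  have h1 : (Nat.card A).factorization p = 0 := by
    rw [← Finsupp.notMem_support_iff, Nat.support_factorization]
    exact hp
  change (if p < Nat.card {a : A // a ^ p = 1} then p ^ ((Nat.card A).factorization p - 1)
    else 1) = 1
  rw [h1]
  split_ifs <;> simp

lemma cexp_dvd (N : Subgroup A) {l : ℕ} (hl : l.Prime) (h : l < Nat.card (tor A l))
    (hN : Nat.card N = l ∨ Nat.card N = l * l) : l * cexp (A ⧸ N) ∣ cexp A := by
  classical
  have hA0 : Nat.card A ≠ 0 := Nat.card_pos.ne'
  have hQ0 : Nat.card (A ⧸ N) ≠ 0 := Nat.card_pos.ne'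
  have hN0 : Nat.card N ≠ 0 := Nat.card_pos.ne'
  have hcard := card_quot N
  have hsub : (Nat.card (A ⧸ N)).primeFactors ⊆ (Nat.card A).primeFactors :=
    Nat.primeFactors_mono ⟨_, hcard⟩ hA0
  have hfac : ∀ p, (Nat.card A).factorization p
      = (Nat.card (A ⧸ N)).factorization p + (Nat.card N).factorization p := by
    intro p
    rw [hcard, Nat.factorization_mul hQ0 hN0]
    rfl
  have hlA : l * l ∣ Nat.card A := (sq_dvd_tor hl h).trans (Subgroup.card_subgroup_dvd_card _)
  have hv : 2 ≤ (Nat.card A).factorization l := by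
    rw [← hl.pow_dvd_iff_le_factorization hA0, pow_two]
    exact hlA
  have hlmem : l ∈ (Nat.card A).primeFactors :=
    Nat.mem_primeFactors.mpr ⟨hl, (Dvd.intro _ rfl).trans hlA, hA0⟩
  rw [cexp_eq (A ⧸ N) hsub, cexp_eq A (Finset.Subset.refl _)]
  rw [← Finset.mul_prod_erase _ _ hlmem, ← Finset.mul_prod_erase _ _ hlmem, ← mul_assoc]
  refine mul_dvd_mul ?_ (Finset.prod_dvd_prod_of_dvd _ _ fun p hp => ?_)
  · -- the factor at `l`
    have hNl : 1 ≤ (Nat.card N).factorization l := by
      rcases hN with h1 | h1
      · rw [h1, hl.factorization_self]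
      · rw [h1, Nat.factorization_mul hl.ne_zero hl.ne_zero, Finsupp.add_apply,
          hl.factorization_self]
        omega
    have e1 : fac A l = l ^ ((Nat.card A).factorization l - 1) := if_pos h
    rw [e1]
    have h2 := hfac l
    by_cases h3 : l < Nat.card (tor (A ⧸ N) l)
    · have e2 : fac (A ⧸ N) l = l ^ ((Nat.card (A ⧸ N)).factorization l - 1) := if_pos h3
      rw [e2, ← pow_succ']
      exact pow_dvd_pow l (by omega)
    · have e2 : fac (A ⧸ N) l = 1 := if_neg h3
      rw [e2, mul_one]
      exact dvd_pow_self l (by omega)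
  · rw [Finset.mem_erase] at hp
    obtain ⟨hpl, hp⟩ := hp
    have hpp : p.Prime := (Nat.mem_primeFactors.mp hp).1
    have hcop : (Nat.card N).Coprime p := by
      have h1 : l.Coprime p := (Nat.coprime_primes hl hpp).mpr (fun h => hpl h.symm)
      rcases hN with h2 | h2
      · rw [h2]; exact h1
      · rw [h2]; exact Nat.Coprime.mul_left h1 h1
    have hNp : (Nat.card N).factorization p = 0 :=
      Nat.factorization_eq_zero_of_not_dvd fun h1 =>
        hpp.one_lt.ne' (Nat.dvd_one.mp (hcop ▸ Nat.dvd_gcd h1 dvd_rfl))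
    have h2 := hfac p
    rw [hNp, add_zero] at h2
    unfold fac
    rw [h2]
    by_cases h3 : p < Nat.card (tor (A ⧸ N) p)
    · rw [if_pos h3, if_pos (lt_of_lt_of_le h3 (tor_quot N hcop))]
    · rw [if_neg h3]
      exact one_dvd _

/-- `cexp A` times the indicator function of `1` is an integral combination of the indicator
functions of the subgroups with cyclic quotient -/
theorem main : ∀ (n : ℕ) (A : Type) [CommGroup A] [Finite A], Nat.card A = n →
    (cexp A : ℤ) • ind (⊥ : Subgroup A) ∈ S A := by
  intro n
  induction n using Nat.strong_induction_on with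
  | _ n ih =>
    intro A _ _ hn
    by_cases hc : IsCyclic A
    · refine AddSubgroup.zsmul_mem _ (ind_mem ?_) _
      exact isCyclic_of_surjective (QuotientGroup.mk' (⊥ : Subgroup A))
        (QuotientGroup.mk'_surjective _)
    · have h1 : ∃ l : ℕ, l.Prime ∧ l < Nat.card (tor A l) := by
        by_contra h2
        push Not at h2
        exact hc (isCyclic_of_thin h2)
      obtain ⟨l, hl, h1⟩ := h1
      obtain ⟨H, hH, hHc⟩ := exists_sub hl h1
      obtain ⟨𝒞, h𝒞, hcard⟩ := exists_partition hl hl le_rfl hH hHc
      have key : ∀ N : Subgroup A, (Nat.card N = l ∨ Nat.card N = l * l) →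
          ∃ m : ℕ, cexp A = m * l * cexp (A ⧸ N) ∧ (cexp (A ⧸ N) : ℤ) • ind N ∈ S A := by
        intro N hN
        obtain ⟨m, hm⟩ := cexp_dvd N hl h1 hN
        refine ⟨m, by rw [hm]; ring, ?_⟩
        have hlt : Nat.card (A ⧸ N) < n := by
          have h2 : 1 < Nat.card N := by
            rcases hN with h3 | h3
            · rw [h3]; exact hl.one_lt
            · rw [h3]; nlinarith [hl.two_le]
          have h3 : 0 < Nat.card (A ⧸ N) := Nat.card_pos
          have h4 := card_quot N
          rw [hn] at h4
          nlinarith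
        have h2 := comp_mem N (ih _ hlt (A ⧸ N) rfl)
        have h3 : (fun a : A => ((cexp (A ⧸ N) : ℤ) • ind (⊥ : Subgroup (A ⧸ N)))
            (QuotientGroup.mk a)) = (cexp (A ⧸ N) : ℤ) • ind N := by
          funext a
          rw [Pi.smul_apply, Pi.smul_apply]
          congr 1
          simp only [ind]
          have h4 : (QuotientGroup.mk a : A ⧸ N) ∈ (⊥ : Subgroup (A ⧸ N)) ↔ a ∈ N := by
            rw [Subgroup.mem_bot]
            exact QuotientGroup.eq_one_iff a
          by_cases ha : a ∈ N
          · rw [if_pos ha, if_pos (h4.mpr ha)]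
          · rw [if_neg ha, if_neg (fun h => ha (h4.mp h))]
        rwa [h3] at h2
      have hpart : ∀ P ∈ 𝒞, Nat.card P = l := by
        intro P hP
        have h2 := (h𝒞.1 P hP)
        have h3 : Nat.card P ∣ l * l := hH ▸ Subgroup.card_dvd_of_le h2.2
        rw [← pow_two] at h3
        obtain ⟨i, hi, h4⟩ := (Nat.dvd_prime_pow hl).mp h3
        have h5 : i ≠ 0 := by
          rintro rfl
          rw [pow_zero] at h4
          exact h2.1 (Subgroup.card_eq_one.mp h4)
        have h6 : i ≠ 2 := by
          rintro rfl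
          have h7 : P = H := Subgroup.eq_of_le_of_card_ge h2.2 (by rw [h4, hH, pow_two])
          -- then there is only one member
          have h8 : 𝒞 ⊆ {H} := by
            intro Q hQ
            rw [Finset.mem_singleton]
            have h9 := h𝒞.1 Q hQ
            obtain ⟨x, hx, hx1⟩ := (Subgroup.bot_or_exists_ne_one Q).resolve_left h9.1
            obtain ⟨R, -, hR⟩ := h𝒞.2 x (h9.2 hx) hx1
            rw [hR Q ⟨hQ, hx⟩, ← hR P ⟨hP, h7 ▸ h9.2 hx⟩, h7]
          have h9 := Finset.card_le_card h8
          rw [hcard, Finset.card_singleton] at h9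
          have := hl.two_le
          omega
        have h7 : i = 1 := by omega
        rw [h4, h7, pow_one]
      obtain ⟨m, hm, hmem⟩ := key H (Or.inr hH)
      have hrel := basic_rel h𝒞 hcard
      have h2 : (cexp A : ℤ) • ind (⊥ : Subgroup A)
          = ((m * cexp (A ⧸ H) : ℕ) : ℤ) • ((l : ℤ) • ind (⊥ : Subgroup A)) := by
        rw [smul_smul, hm]
        congr 1
        push_cast
        ring
      rw [h2, hrel, smul_sub, Finset.smul_sum]
      refine sub_mem (sum_mem fun P hP => ?_) ?_
      · obtain ⟨m', hm', hmem'⟩ := key P (Or.inl (hpart P hP))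
        have h3 : m * cexp (A ⧸ H) = m' * cexp (A ⧸ P) := by
          have h4 : m * cexp (A ⧸ H) * l = m' * cexp (A ⧸ P) * l := by
            rw [hm] at hm'
            linarith [hm']
          exact Nat.eq_of_mul_eq_mul_right hl.pos h4
        rw [h3, Nat.cast_mul, mul_smul]
        exact AddSubgroup.zsmul_mem _ hmem' _
      · rw [Nat.cast_mul, mul_smul]
        exact AddSubgroup.zsmul_mem _ hmem _

end

end Pool.Agent.H504.CV
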