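import Mathlib
import Pool.Agent.H504.CV.Rel
import Pool.Agent.H600.SF.Main

/-!
# Traces to cyclic subfields, and the values of characters
-/

set_option autoImplicit false
set_option linter.unusedSectionVars false

namespace Pool.Agent.H504.CV

open NumberField Pool.Agent.K4H74 Pool.Agent.K4H74.SK Pool.Agent.H600.SF

/-- The field generated by the values of a function. -/
noncomputable def vals {G : Type} (χ : G → ℂ) : IntermediateField ℚ ℂ :=
  IntermediateField.adjoin ℚ (Set.range χ)

lemma mem_vals {G : Type} (χ : G → ℂ) (g : G) : χ g ∈ vals χ :=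
  IntermediateField.subset_adjoin ℚ _ ⟨g, rfl⟩

lemma vals_le {G : Type} {χ : G → ℂ} {F : IntermediateField ℚ ℂ} (h : ∀ g, χ g ∈ F) :
    vals χ ≤ F := by
  rw [vals, IntermediateField.adjoin_le_iff]
  rintro _ ⟨g, rfl⟩
  exact h g

section gen

variable {k Ω : Type} [Field k] [Field Ω] [Algebra k Ω]

/-- `K` is a cyclic extension of `k` of finite degree. -/
def Cyc (K : IntermediateField k Ω) : Prop :=
  FiniteDimensional k K ∧ IsGalois k K ∧ IsCyclic (K ≃ₐ[k] K)

/-- `K` is an abelian extension of `k` of finite degree. -/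
def Abl (K : IntermediateField k Ω) : Prop := FiniteDimensional k K ∧ IsAbelianGalois k K

/-- The product of `|A_p| / p` over the primes `p` for which the `p`-part `A_p` of the Galois group
`A` of the abelian extension `K / k` is not cyclic. -/
noncomputable def cexpF (K : IntermediateField k Ω) : ℕ := cexp (K ≃ₐ[k] K)

lemma finite_of_le {F M : IntermediateField k Ω} (h : F ≤ M) (hM : FiniteDimensional k M) :
    FiniteDimensional k F :=
  Module.Finite.of_injective (IntermediateField.inclusion h).toLinearMap
    (IntermediateField.inclusion_injective h)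

lemma Abl.mono {F M : IntermediateField k Ω} (h : F ≤ M) (hM : Abl M) : Abl F := by
  obtain ⟨h1, h2⟩ := hM
  exact ⟨finite_of_le h h1, IsAbelianGalois.of_algHom (IntermediateField.inclusion h)⟩

lemma Cyc.abl {M : IntermediateField k Ω} (hM : Cyc M) : Abl M := by
  obtain ⟨h1, h2, h3⟩ := hM
  exact ⟨h1, IsAbelianGalois.of_isCyclic k M⟩

lemma Cyc.mono {F M : IntermediateField k Ω} (h : F ≤ M) (hM : Cyc M) : Cyc F := by
  obtain ⟨h4, h5⟩ := Abl.mono h hM.abl
  obtain ⟨h1, h2, h3⟩ := hM
  refine ⟨h4, h5.toIsGalois, ?_⟩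
  let : Algebra F M := (IntermediateField.inclusion h).toRingHom.toAlgebra
  have : IsScalarTower k F M := IsScalarTower.of_algebraMap_eq' rfl
  exact isCyclic_of_surjective (AlgEquiv.restrictNormalHom F : (M ≃ₐ[k] M) →* (F ≃ₐ[k] F))
    (AlgEquiv.restrictNormalHom_surjective M)

/-- isomorphic fields -/
lemma cyc_of_equiv {K : Type} [Field K] [Algebra k K] {M : IntermediateField k Ω}
    (e : K ≃ₐ[k] M) (h1 : FiniteDimensional k K) (h2 : IsGalois k K) (h3 : IsCyclic (K ≃ₐ[k] K)) :
    Cyc M := by
  refine ⟨Module.Finite.equiv e.toLinearEquiv, IsGalois.of_algEquiv e, ?_⟩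
  exact isCyclic_of_surjective (AlgEquiv.autCongr e) (AlgEquiv.autCongr e).surjective

lemma abl_of_cyc (K : IntermediateField k Ω) {D : ℕ} [NeZero D]
    (h : IsCyclotomicExtension {D} k K.toSubalgebra) : Abl K := by
  have h1 : IsCyclotomicExtension {D} k K := h
  exact ⟨IsCyclotomicExtension.finiteDimensional {D} k K,
    IsCyclotomicExtension.isAbelianGalois {D} k K⟩

end gen

/-- The field of the `D`-th roots of unity. -/
noncomputable abbrev Cy (D : ℕ) : IntermediateField ℚ ℂ := IntermediateField.adjoin ℚ {zeta D}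

lemma cyclo {D : ℕ} (hD : D ≠ 0) : IsCyclotomicExtension {D} ℚ (Cy D).toSubalgebra := by
  have : NeZero D := ⟨hD⟩
  have h1 := zeta_prim hD
  have h2 : IsAlgebraic ℚ (zeta D) :=
    IsIntegral.isAlgebraic ((h1.isIntegral (Nat.pos_of_ne_zero hD)).tower_top)
  rw [IntermediateField.adjoin_simple_toSubalgebra_of_isAlgebraic h2]
  exact h1.adjoin_isCyclotomicExtension ℚ

lemma abl_cy {D : ℕ} (hD : D ≠ 0) : Abl (Cy D) := by
  have : NeZero D := ⟨hD⟩
  have := cyclo hD
  exact abl_of_cyc (Cy D) (cyclo hD)

section traces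

variable {k F : Type} [Field k] [Field F] [Algebra k F] [FiniteDimensional k F]

open scoped IsMulCommutative in
/-- A positive multiple of the identity of an abelian extension is an integral combination of
the traces to the cyclic subextensions. -/
theorem trace_rel [IsAbelianGalois k F] :
    ∃ (r : ℕ) (K : Fin r → IntermediateField k F) (n : Fin r → ℤ),
    (∀ i, IsCyclic (K i ≃ₐ[k] K i)) ∧ ∀ x : F, (cexp (F ≃ₐ[k] F) : F) * x
      = ∑ i, (n i : F) * algebraMap (K i) F (Algebra.trace (K i) F x) := by
  classical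
  have h0 := main (Nat.card (F ≃ₐ[k] F)) (F ≃ₐ[k] F) rfl
  have key : ∀ g ∈ S (F ≃ₐ[k] F), ∃ (r : ℕ) (K : Fin r → IntermediateField k F) (n : Fin r → ℤ),
      (∀ i, IsCyclic (K i ≃ₐ[k] K i)) ∧ ∀ x : F, ∑ a : F ≃ₐ[k] F, (g a : F) * a x
        = ∑ i, (n i : F) * algebraMap (K i) F (Algebra.trace (K i) F x) := by
    intro g hg
    induction hg using AddSubgroup.closure_induction with
    | mem g h =>
      obtain ⟨B, hB, rfl⟩ := h
      refine ⟨1, fun _ => IntermediateField.fixedField B, fun _ => 1, fun _ => ?_, fun x => ?_⟩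
      · let e : (F ≃ₐ[k] F) ⧸ B ≃* (IntermediateField.fixedField B ≃ₐ[k]
          IntermediateField.fixedField B) := IsGalois.normalAutEquivQuotient B
        exact isCyclic_of_surjective e e.surjective
      · rw [Fin.sum_univ_one, trace_eq_sum_automorphisms, Int.cast_one, one_mul]
        have h1 : ∀ a : F ≃ₐ[k] F, ((ind B a : ℤ) : F) * a x = if a ∈ B then a x else 0 := by
          intro a
          unfold ind
          split_ifs <;> simp
        rw [Finset.sum_congr rfl fun a _ => h1 a, ← Finset.sum_filter,
          ← Finset.sum_subtype_eq_sum_filter]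
        have h2 : ∑ σ : F ≃ₐ[IntermediateField.fixedField B] F, σ x = ∑ b : B, (b : F ≃ₐ[k] F) x :=
          ((IntermediateField.subgroupEquivAlgEquiv B).toEquiv.sum_comp
            (fun σ : F ≃ₐ[IntermediateField.fixedField B] F => σ x)).symm
        rw [h2]
        symm
        refine Finset.sum_bij' (fun a _ => ⟨a.1, a.2⟩) (fun a _ => ⟨a.1, a.2⟩) ?_ ?_ ?_ ?_ ?_
        · intro a _
          exact Finset.mem_subtype.mpr (Finset.mem_univ _)
        · intro a _
          exact Finset.mem_univ _
        · intro a _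
          rfl
        · intro a _
          rfl
        · intro a _
          rfl
    | zero => exact ⟨0, fun i => i.elim0, fun i => i.elim0, fun i => i.elim0, fun x => by simp⟩
    | add a b _ _ ha hb =>
      obtain ⟨r, K, n, h1, h2⟩ := ha
      obtain ⟨r', K', n', h1', h2'⟩ := hb
      refine ⟨r + r', Fin.append K K', Fin.append n n', fun i => ?_, fun x => ?_⟩
      · induction i using Fin.addCases with
        | left i => rw [Fin.append_left]; exact h1 i
        | right i => rw [Fin.append_right]; exact h1' i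
      · rw [Fin.sum_univ_add]
        let u : IntermediateField k F → F := fun M => algebraMap M F (Algebra.trace M F x)
        change ∑ y : F ≃ₐ[k] F, (((a + b) y : ℤ) : F) * y x
          = ∑ i, ((Fin.append n n' (Fin.castAdd r' i) : ℤ) : F) *
              u (Fin.append K K' (Fin.castAdd r' i))
          + ∑ i, ((Fin.append n n' (Fin.natAdd r i) : ℤ) : F) *
              u (Fin.append K K' (Fin.natAdd r i))
        simp only [Fin.append_left, Fin.append_right]
        change _ = ∑ i, (n i : F) * algebraMap (K i) F (Algebra.trace (K i) F x)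
          + ∑ i, (n' i : F) * algebraMap (K' i) F (Algebra.trace (K' i) F x)
        rw [← h2, ← h2', ← Finset.sum_add_distrib]
        refine Finset.sum_congr rfl fun y _ => ?_
        rw [Pi.add_apply, Int.cast_add, add_mul]
    | neg a _ ha =>
      obtain ⟨r, K, n, h1, h2⟩ := ha
      refine ⟨r, K, fun i => - n i, h1, fun x => ?_⟩
      simp only [Pi.neg_apply, Int.cast_neg, neg_mul, Finset.sum_neg_distrib, h2]
  obtain ⟨r, K, n, h1, h2⟩ := key _ h0
  refine ⟨r, K, n, h1, fun x => ?_⟩
  rw [← h2 x, Finset.sum_eq_single (1 : F ≃ₐ[k] F)]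
  · simp [ind]
  · intro b _ hb
    simp [ind, hb]
  · intro h
    exact absurd (Finset.mem_univ _) h

end traces

end Pool.Agent.H504.CV
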