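import Mathlib
import Pool.Agent.H504.CV.Fld

/-!
# Characters: values, conjugates, and the relation between a character and its traces
-/

set_option autoImplicit false
set_option linter.unusedSectionVars false

namespace Pool.Agent.H504.CV

open NumberField Pool.Agent.K4H74 Pool.Agent.K4H74.ST Pool.Agent.K4H74.SK Pool.Agent.H600.SF

/-- additive functions and integral relations -/
lemma rel_of_add {X : Type} [AddCommGroup X] (P : X → Prop) (h0 : P 0)
    (hP : ∀ a b, P a → P b → P (a + b)) {M : Type} [CommGroup M] (v : X → M)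
    (hv : ∀ a b, P a → P b → v (a + b) = v a * v b) {r : ℕ} (θ : Fin r → X) (n : Fin r → ℤ)
    (hθ : ∀ i, P (θ i)) {χ : X} (hχ : P χ) {k : ℕ} (h : k • χ = ∑ i, n i • θ i) :
    v χ ^ k = ∏ i, v (θ i) ^ n i := by
  have v0 : v 0 = 1 := by
    have h1 := hv 0 0 h0 h0
    rw [add_zero] at h1
    exact (mul_eq_left.mp h1.symm)
  have hs : ∀ (m : ℕ) (a : X), P a → P (m • a) ∧ v (m • a) = v a ^ m := by
    intro m a ha
    induction m with
    | zero => rw [zero_smul, pow_zero]; exact ⟨h0, v0⟩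
    | succ m ih =>
      rw [succ_nsmul, pow_succ]
      exact ⟨hP _ _ ih.1 ha, by rw [hv _ _ ih.1 ha, ih.2]⟩
  have hsum : ∀ (s : Finset (Fin r)) (m : Fin r → ℕ), P (∑ i ∈ s, m i • θ i) ∧
      v (∑ i ∈ s, m i • θ i) = ∏ i ∈ s, v (θ i) ^ m i := by
    classical
    intro s m
    induction s using Finset.induction_on with
    | empty => rw [Finset.sum_empty, Finset.prod_empty]; exact ⟨h0, v0⟩
    | insert a s ha ih =>
      rw [Finset.sum_insert ha, Finset.prod_insert ha]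
      have h1 := hs (m a) (θ a) (hθ a)
      exact ⟨hP _ _ h1.1 ih.1, by rw [hv _ _ h1.1 ih.1, h1.2, ih.2]⟩
  have e1 : k • χ + ∑ i, (- n i).toNat • θ i = ∑ i, (n i).toNat • θ i := by
    rw [h, ← Finset.sum_add_distrib]
    refine Finset.sum_congr rfl fun i _ => ?_
    rw [← natCast_zsmul, ← natCast_zsmul, ← add_smul]
    congr 1
    omega
  have h1 := hs k χ hχ
  have h2 := hsum Finset.univ fun i => (- n i).toNat
  have h3 := hsum Finset.univ fun i => (n i).toNat
  have h4 := congrArg v e1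
  rw [hv _ _ h1.1 h2.1, h1.2, h2.2, h3.2] at h4
  rw [← eq_div_iff_mul_eq'] at h4
  rw [h4, ← Finset.prod_div_distrib]
  refine Finset.prod_congr rfl fun i _ => ?_
  rw [← zpow_natCast, ← zpow_natCast, div_eq_mul_inv, ← zpow_sub]
  congr 1
  omega

section chr

lemma finite_G (E : Ext) : Finite (G E) := inferInstanceAs (Finite (E.L ≃ₐ[E.K] E.L))

lemma isChr_zero {E : Ext} : IsChr (0 : G E → ℂ) := isChr_iff.mpr IsChar.zero

lemma isChr_add {E : Ext} {χ χ' : G E → ℂ} (h : IsChr χ) (h' : IsChr χ') : IsChr (χ + χ') :=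
  isChr_iff.mpr ((isChr_iff.mp h).add (isChr_iff.mp h'))

lemma isChr_sigma {E : Ext} {χ : G E → ℂ} (h : IsChr χ) (τ : ℂ ≃+* ℂ) :
    IsChr (fun g => τ (χ g)) := by
  have := finite_G E
  exact isChr_iff.mpr (SC.isChar_sigma (isChr_iff.mp h) τ.toRingHom)

lemma isChr_sum {E : Ext} {ι : Type} (s : Finset ι) (f : ι → G E → ℂ) (h : ∀ i ∈ s, IsChr (f i)) :
    IsChr (∑ i ∈ s, f i) :=
  Finset.sum_induction _ IsChr (fun _ _ => isChr_add) isChr_zero h

/-- the values of a character are sums of roots of unity -/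
lemma chr_mem_cy {G : Type} [Group G] {χ : G → ℂ} (h : IsChr χ) {D : ℕ} (hD : D ≠ 0)
    (hg : ∀ g : G, g ^ D = 1) (g : G) : χ g ∈ Cy D := by
  obtain ⟨n, ρ, hρ⟩ := h
  rw [hρ, Matrix.trace_eq_sum_roots_charpoly_of_splits (IsAlgClosed.splits _)]
  refine multiset_sum_mem _ fun x hx => ?_
  have h1 : x ∈ spectrum ℂ (ρ g) := by
    rw [Matrix.mem_spectrum_iff_isRoot_charpoly]
    exact Polynomial.isRoot_of_mem_roots hx
  have hn : Nontrivial (Matrix (Fin n) (Fin n) ℂ) := by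
    by_contra h2
    rw [not_nontrivial_iff_subsingleton] at h2
    rw [spectrum.of_subsingleton] at h1
    exact h1
  have h2 : x ^ D ∈ spectrum ℂ (ρ g ^ D) := spectrum.pow_mem_pow (ρ g) D h1
  rw [← map_pow, hg, map_one, spectrum.one_eq, Set.mem_singleton_iff] at h2
  have : NeZero D := ⟨hD⟩
  obtain ⟨i, -, hi⟩ := (zeta_prim hD).eq_pow_of_pow_eq_one h2
  rw [← hi]
  exact pow_mem (IntermediateField.mem_adjoin_simple_self ℚ (zeta D)) i

lemma vals_le_cy {E : Ext} {χ : G E → ℂ} (h : IsChr χ) : vals χ ≤ Cy (Nat.card (G E)) := by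
  have := finite_G E
  exact vals_le fun g => chr_mem_cy h Nat.card_pos.ne' (fun g => pow_card_eq_one') g

lemma abl_vals {E : Ext} {χ : G E → ℂ} (h : IsChr χ) : Abl (vals χ) := by
  have := finite_G E
  exact (abl_cy Nat.card_pos.ne').mono (vals_le_cy h)

/-- an automorphism of a number field in `ℂ` extends to `ℂ` -/
lemma exists_ext {F : IntermediateField ℚ ℂ} (hF : FiniteDimensional ℚ F) (f : F →+* F) :
    ∃ τ : ℂ ≃+* ℂ, ∀ x : F, τ x = f x := by
  have hn : NumberField F := by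
    refine @NumberField.mk _ _ inferInstance ?_
    convert hF
  obtain ⟨τ, hτ⟩ := Pool.Agent.Y4.exists_aut_emb (algebraMap F ℂ) ((algebraMap F ℂ).comp f)
  exact ⟨τ, fun x => RingHom.congr_fun hτ x⟩

end chr

section gen

variable {k Ω : Type} [Field k] [Field Ω] [Algebra k Ω]

/-- the traces to the cyclic subfields, inside the big field -/
theorem trace_rel_sub {F : IntermediateField k Ω} (hF : Abl F) :
    ∃ (r : ℕ) (K : Fin r → IntermediateField k Ω) (s : Fin r → Finset (F ≃ₐ[k] F)) (n : Fin r → ℤ),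
      (∀ i, K i ≤ F ∧ Cyc (K i) ∧ ∀ x : F, ((∑ a ∈ s i, a x : F) : Ω) ∈ K i) ∧
      ∀ x : F, (cexpF F : F) * x = ∑ i, (n i : F) * ∑ a ∈ s i, a x := by
  classical
  obtain ⟨h1, h2⟩ := hF
  obtain ⟨r, K, n, h3, h4⟩ := trace_rel (k := k) (F := F)
  have h5 : ∀ i, ∃ s : Finset (F ≃ₐ[k] F), ∀ x : F,
      algebraMap (K i) F (Algebra.trace (K i) F x) = ∑ a ∈ s, a x := by
    intro i
    refine ⟨Finset.univ.image (fun σ : F ≃ₐ[K i] F => σ.restrictScalars k), fun x => ?_⟩
    rw [trace_eq_sum_automorphisms, Finset.sum_image]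
    · rfl
    · intro a _ b _ hab
      exact AlgEquiv.restrictScalars_injective k hab
  choose s hs using h5
  refine ⟨r, fun i => IntermediateField.lift (K i), s, n, fun i => ⟨IntermediateField.lift_le _,
    ?_, fun x => ?_⟩, fun x => ?_⟩
  · have h6 : IsAbelianGalois k (K i) := inferInstance
    exact cyc_of_equiv (IntermediateField.liftAlgEquiv (K i)) inferInstance h6.toIsGalois (h3 i)
  · rw [← hs, IntermediateField.mem_lift]
    exact (Algebra.trace (K i) F x).2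
  · rw [cexpF, h4]
    exact Finset.sum_congr rfl fun i _ => by rw [hs]

end gen

/-- The relation between a character and the sums of its conjugates with cyclic field of values. -/
theorem cyc_rel {E : Ext} {χ : G E → ℂ} (hχ : IsChr χ) {F : IntermediateField ℚ ℂ} (hF : Abl F)
    (hv : ∀ g, χ g ∈ F) : ∃ (r : ℕ) (θ : Fin r → G E → ℂ) (n : Fin r → ℤ),
      (∀ i, IsChr (θ i) ∧ vals (θ i) ≤ F ∧ Cyc (vals (θ i)) ∧
        ∃ (m : ℕ) (τ : Fin m → ℂ ≃+* ℂ), ∀ g, θ i g = ∑ j, τ j (χ g)) ∧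
      cexpF F • χ = ∑ i, n i • θ i := by
  classical
  obtain ⟨r, K, s, n, h1, h2⟩ := trace_rel_sub hF
  have hext : ∀ a : F ≃ₐ[ℚ] F, ∃ τ : ℂ ≃+* ℂ, ∀ x : F, τ x = a x := fun a =>
    exists_ext hF.1 (a : F →+* F)
  choose τ hτ using hext
  let θ : Fin r → G E → ℂ := fun i => ∑ a ∈ s i, fun g => τ a (χ g)
  have hθ : ∀ i g, θ i g = ((∑ a ∈ s i, a ⟨χ g, hv g⟩ : F) : ℂ) := by
    intro i g
    change (∑ a ∈ s i, fun g => τ a (χ g)) g = _
    rw [Finset.sum_apply]
    have h3 : ((∑ a ∈ s i, a ⟨χ g, hv g⟩ : F) : ℂ) = ∑ a ∈ s i, ((a ⟨χ g, hv g⟩ : F) : ℂ) :=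
      map_sum (algebraMap F ℂ) _ _
    rw [h3]
    exact Finset.sum_congr rfl fun a _ => hτ a ⟨χ g, hv g⟩
  have hle : ∀ i, vals (θ i) ≤ K i := fun i => vals_le fun g => by
    rw [hθ]
    exact (h1 i).2.2 _
  refine ⟨r, θ, n, fun i => ⟨isChr_sum _ _ fun a _ => isChr_sigma hχ (τ a),
    (hle i).trans (h1 i).1, (h1 i).2.1.mono (hle i), (s i).card,
    fun j => τ ((s i).equivFin.symm j : s i).1, fun g => ?_⟩, ?_⟩
  · change (∑ a ∈ s i, fun g => τ a (χ g)) g = _
    rw [Finset.sum_apply, ← Finset.sum_coe_sort, ← (s i).equivFin.symm.sum_comp]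
  · funext g
    have h3 := congrArg (fun x : F => (x : ℂ)) (h2 ⟨χ g, hv g⟩)
    rw [Pi.smul_apply, Finset.sum_apply, nsmul_eq_mul]
    simp only [Pi.smul_apply, zsmul_eq_mul, hθ]
    have h4 : ((∑ i, (n i : F) * ∑ a ∈ s i, a ⟨χ g, hv g⟩ : F) : ℂ)
        = ∑ i, (n i : ℂ) * ((∑ a ∈ s i, a ⟨χ g, hv g⟩ : F) : ℂ) := by
      rw [← IntermediateField.algebraMap_apply, map_sum]
      refine Finset.sum_congr rfl fun i _ => ?_
      rw [map_mul, map_intCast]
      rfl
    rw [← h4, ← h3]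
    rw [← IntermediateField.algebraMap_apply, map_mul, map_natCast]
    rfl

/-- the relation for a function which is additive on the characters -/
theorem cyc_rel_val {E : Ext} {M : Type} [CommGroup M] (v : (G E → ℂ) → M)
    (hv : ∀ a b, IsChr a → IsChr b → v (a + b) = v a * v b) {χ : G E → ℂ} (hχ : IsChr χ)
    {k r : ℕ} {θ : Fin r → G E → ℂ} {n : Fin r → ℤ} (hθ : ∀ i, IsChr (θ i))
    (h : k • χ = ∑ i, n i • θ i) : v χ ^ k = ∏ i, v (θ i) ^ n i :=
  rel_of_add IsChr isChr_zero (fun _ _ => isChr_add) v hv θ n hθ hχ h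

end Pool.Agent.H504.CV
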