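import Mathlib
import Pool.Agent.H504.CV.Chr

/-!
# The reduction to the traces, over the cyclic fields, of the linear characters whose order is the
conductor
-/

set_option autoImplicit false
set_option linter.unusedSectionVars false

namespace Pool.Agent.H504.CV

open NumberField Pool.Agent.K4H74 Pool.Agent.K4H74.ST Pool.Agent.K4H74.SK Pool.Agent.H600.SF
  Pool.Agent.K4H77.SL Pool.Agent.K4H34.NC Pool.Agent.K4H34.AL Pool.Agent.R389

/-- `f` is the conductor of `K`: the least `f > 0` such that `K` is contained in the field of the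
`f`-th roots of unity. -/
def IsCond (K : IntermediateField ℚ ℂ) (f : ℕ) : Prop :=
  0 < f ∧ K ≤ Cy f ∧ ∀ d : ℕ, 0 < d → K ≤ Cy d → f ≤ d

lemma exists_cond {K : IntermediateField ℚ ℂ} (h : ∃ D : ℕ, D ≠ 0 ∧ K ≤ Cy D) :
    ∃ f, IsCond K f := by
  classical
  obtain ⟨D, hD, h⟩ := h
  have h1 : ∃ f : ℕ, 0 < f ∧ K ≤ Cy f := ⟨D, Nat.pos_of_ne_zero hD, h⟩
  exact ⟨Nat.find h1, (Nat.find_spec h1).1, (Nat.find_spec h1).2,
    fun d hd hd' => Nat.find_min' h1 ⟨hd, hd'⟩⟩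

section gen

variable {k Ω : Type} [Field k] [Field Ω] [Algebra k Ω]

/-- an element of an abelian field which is fixed by the automorphisms over `F` is in `F` -/
lemma mem_of_fixed_gen {F C : IntermediateField k Ω} (hC : Abl C) (hFC : F ≤ C) {x : Ω}
    (hx : x ∈ C) (h : ∀ σ : C ≃ₐ[k] C, (∀ y : C, (y : Ω) ∈ F → σ y = y) → σ ⟨x, hx⟩ = ⟨x, hx⟩) :
    x ∈ F := by
  obtain ⟨h1, h2⟩ := hC
  have h3 := (IsGalois.fixedField_fixingSubgroup (F := k) (E := C) (IntermediateField.restrict hFC))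
  have h4 : (⟨x, hx⟩ : C) ∈ IntermediateField.fixedField
      (IntermediateField.fixingSubgroup (IntermediateField.restrict hFC)) := by
    rintro ⟨σ, hσ⟩
    refine h σ fun y hy => ?_
    exact hσ ⟨y, (IntermediateField.mem_restrict hFC y).mpr hy⟩
  rw [h3, IntermediateField.mem_restrict] at h4
  exact h4

end gen

lemma mem_of_fixed {F C : IntermediateField ℚ ℂ} (hC : Abl C) (hFC : F ≤ C) {x : ℂ}
    (hx : x ∈ C) (h : ∀ τ : ℂ ≃+* ℂ, (∀ y ∈ F, τ y = y) → τ x = x) : x ∈ F := by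
  refine mem_of_fixed_gen hC hFC hx fun σ hσ => ?_
  obtain ⟨τ, hτ⟩ := exists_ext hC.1 (σ : C →+* C)
  have h1 : τ x = x := by
    refine h τ fun y hy => ?_
    have h2 := hτ ⟨y, hFC hy⟩
    have h3 : ((σ : C →+* C) ⟨y, hFC hy⟩ : C) = ⟨y, hFC hy⟩ := hσ ⟨y, hFC hy⟩ hy
    rw [h3] at h2
    exact h2
  have h2 := hτ ⟨x, hx⟩
  apply Subtype.ext
  exact h2.symm.trans h1

/-- an automorphism raises the `D`-th roots of unity to a power -/
lemma exists_exp {D : ℕ} (hD : D ≠ 0) (τ : ℂ ≃+* ℂ) :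
    ∃ h : (ZMod D)ˣ, ∀ z : ℂ, z ^ D = 1 → τ z = z ^ (h : ZMod D).val := by
  have : NeZero D := ⟨hD⟩
  have h1 := zeta_prim hD
  have h2 : IsPrimitiveRoot (τ (zeta D)) D := h1.map_of_injective τ.injective
  obtain ⟨i, hi, hic, h3⟩ := (h1.isPrimitiveRoot_iff).mp h2
  refine ⟨ZMod.unitOfCoprime i hic, fun z hz => ?_⟩
  rw [ZMod.coe_unitOfCoprime, ZMod.val_natCast_of_lt hi]
  obtain ⟨j, -, rfl⟩ := h1.eq_pow_of_pow_eq_one hz
  rw [map_pow, ← h3, ← pow_mul, ← pow_mul, mul_comm]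

lemma mem_conj_of {F : IntermediateField ℚ ℂ} {D : ℕ} (hD : D ≠ 0) {τ : ℂ ≃+* ℂ}
    (hτ : ∀ x ∈ F, τ x = x) {h : (ZMod D)ˣ} (hh : ∀ z : ℂ, z ^ D = 1 → τ z = z ^ (h : ZMod D).val) :
    h ∈ conj F D := ⟨τ, hτ, hh _ (zeta_prim hD).pow_eq_one⟩

lemma pow_val_mul {D : ℕ} (hD : D ≠ 0) {z : ℂ} (hz : z ^ D = 1) (a b : (ZMod D)ˣ) :
    z ^ ((a * b : (ZMod D)ˣ) : ZMod D).val = (z ^ (a : ZMod D).val) ^ (b : ZMod D).val := by
  have : NeZero D := ⟨hD⟩
  rw [← pow_mul, Units.val_mul, ZMod.val_mul]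
  exact (pow_eq_pow_mod _ hz).symm

/-- the exponents of the automorphisms over `F` are closed under multiplication and inverses -/
lemma conj_mul {F : IntermediateField ℚ ℂ} {D : ℕ} (hD : D ≠ 0) {τ : ℂ ≃+* ℂ}
    (hτ : ∀ x ∈ F, τ x = x) {h : (ZMod D)ˣ} (hh : ∀ z : ℂ, z ^ D = 1 → τ z = z ^ (h : ZMod D).val)
    (a : (ZMod D)ˣ) : h * a ∈ conj F D ↔ a ∈ conj F D := by
  have hz := (zeta_prim hD).pow_eq_one
  constructor
  · rintro ⟨ρ, h1, h2⟩
    refine ⟨ρ.trans τ.symm, fun x hx => ?_, ?_⟩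
    · change τ.symm (ρ x) = x
      rw [h1 x hx, RingEquiv.symm_apply_eq, hτ x hx]
    · change τ.symm (ρ (zeta D)) = _
      have h3 : (zeta D ^ (a : ZMod D).val) ^ D = 1 := by rw [← pow_mul, mul_comm, pow_mul, hz, one_pow]
      rw [h2, RingEquiv.symm_apply_eq, hh _ h3, mul_comm h a, pow_val_mul hD hz]
  · rintro ⟨ρ, h1, h2⟩
    refine ⟨ρ.trans τ, fun x hx => ?_, ?_⟩
    · change τ (ρ x) = x
      rw [h1 x hx, hτ x hx]
    · change τ (ρ (zeta D)) = _
      have h3 : (zeta D ^ (a : ZMod D).val) ^ D = 1 := by rw [← pow_mul, mul_comm, pow_mul, hz, one_pow]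
      rw [h2, hh _ h3, mul_comm h a, pow_val_mul hD hz]

/-- the trace over `F` has values in `F` -/
lemma tr_mem {F : IntermediateField ℚ ℂ} {D : ℕ} (hD : D ≠ 0) (hF : F ≤ Cy D) {G : Type} [Group G]
    [Finite G] {ψ : G →* ℂˣ} (hψ : ψ ^ D = 1) (g : G) : tr F D ψ g ∈ F := by
  classical
  have : NeZero D := ⟨hD⟩
  have : Fintype (conj F D) := Fintype.ofFinite _
  have hg := units_pow hψ g
  have h0 : tr F D ψ g = ∑ h : conj F D, ((ψ g : ℂˣ) : ℂ) ^ ((h : (ZMod D)ˣ) : ZMod D).val := by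
    rw [Pool.Agent.H600.SF.tr, ← finsum_set_coe_eq_finsum_mem, finsum_eq_sum_of_fintype]
  have hcy : ∀ z : ℂ, z ^ D = 1 → z ∈ Cy D := by
    intro z hz
    obtain ⟨i, -, rfl⟩ := (zeta_prim hD).eq_pow_of_pow_eq_one hz
    exact pow_mem (IntermediateField.mem_adjoin_simple_self ℚ (zeta D)) i
  refine mem_of_fixed (abl_cy hD) hF (x := tr F D ψ g) ?_ fun τ hτ => ?_
  · rw [h0]
    exact sum_mem fun h _ => pow_mem (hcy _ hg) _
  · obtain ⟨b, hb⟩ := exists_exp hD τ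
    rw [h0, map_sum]
    let e : conj F D ≃ conj F D :=
      { toFun := fun a => ⟨b * a, (conj_mul hD hτ hb a).mpr a.2⟩
        invFun := fun a => ⟨b⁻¹ * a, (conj_mul hD hτ hb _).mp (by
          rw [mul_inv_cancel_left]
          exact a.2)⟩
        left_inv := fun a => Subtype.ext (inv_mul_cancel_left _ _)
        right_inv := fun a => Subtype.ext (mul_inv_cancel_left _ _) }
    rw [← e.sum_comp (fun h : conj F D => ((ψ g : ℂˣ) : ℂ) ^ ((h : (ZMod D)ˣ) : ZMod D).val)]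
    refine Finset.sum_congr rfl fun a _ => ?_
    change _ = ((ψ g : ℂˣ) : ℂ) ^ ((b * (a : (ZMod D)ˣ) : (ZMod D)ˣ) : ZMod D).val
    rw [pow_val_mul hD hg, map_pow, hb _ hg]

/-- the trace over `F` has values in the field of the `d`-th roots of unity if `ψ ^ d = 1` -/
lemma tr_mem_cy {F : IntermediateField ℚ ℂ} {D : ℕ} (hD : D ≠ 0) {d : ℕ} (hd : d ≠ 0) {G : Type}
    [Group G] [Finite G] {ψ : G →* ℂˣ} (hψ : ψ ^ d = 1) (g : G) : tr F D ψ g ∈ Cy d := by
  classical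
  have : NeZero D := ⟨hD⟩
  have : Fintype (conj F D) := Fintype.ofFinite _
  have h0 : tr F D ψ g = ∑ h : conj F D, ((ψ g : ℂˣ) : ℂ) ^ ((h : (ZMod D)ˣ) : ZMod D).val := by
    rw [Pool.Agent.H600.SF.tr, ← finsum_set_coe_eq_finsum_mem, finsum_eq_sum_of_fintype]
  have : NeZero d := ⟨hd⟩
  obtain ⟨i, -, hi⟩ := (zeta_prim hd).eq_pow_of_pow_eq_one (units_pow hψ g)
  rw [h0, ← hi]
  exact sum_mem fun h _ => pow_mem (pow_mem (IntermediateField.mem_adjoin_simple_self ℚ (zeta d)) i) _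

lemma finrank_lt {k Ω : Type} [Field k] [Field Ω] [Algebra k Ω] {F K : IntermediateField k Ω}
    (hK : FiniteDimensional k K) (h : F < K) : Module.finrank k F < Module.finrank k K := by
  by_contra h1
  rw [not_lt] at h1
  exact h.ne (IntermediateField.eq_of_le_of_finrank_le h.le h1)

section main

variable {M : Type} [CommGroup M] {A : ArtinInvariant M}

/-- The invariant is trivial on the traces over the cyclic subfields of `F` of the class group
characters whose order is the conductor of the subfield. -/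
def TrivC (A : ArtinInvariant M) (m : ℕ) (F : IntermediateField ℚ ℂ) : Prop :=
  ∀ (K L : Type) [Field K] [NumberField K] [Field L] [NumberField L] [Algebra K L] [IsGalois K L],
    IsTotallyComplex K →
    (∀ P : Ideal (𝓞 L), P.IsMaximal → ∀ g ∈ inertia K P, g = 1) →
    (∀ P : Ideal (𝓞 L), P.IsMaximal → (m : 𝓞 L) ∈ P → ∀ g ∈ decomp K P, g = 1) →
    ∀ (K₀ : IntermediateField ℚ ℂ) (f : ℕ), K₀ ≤ F → Cyc K₀ → IsCond K₀ f →
    ∀ ψ : (L ≃ₐ[K] L) →* ℂˣ, Function.Injective ψ → Nat.card (L ≃ₐ[K] L) = f →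
      A.val K L (tr K₀ f ψ) = 1

theorem main_cyc (htf : ∀ (x : M) (k : ℕ), 0 < k → x ^ k = 1 → x = 1) {m : ℕ} (hm : m ≠ 0)
    {F : IntermediateField ℚ ℂ} (hR : TrivOne A) (hO : TrivOdd A) (hT : TrivC A m F) :
    ∀ (n : ℕ) (K₀ : IntermediateField ℚ ℂ), K₀ ≤ F → Cyc K₀ → (∃ D : ℕ, D ≠ 0 ∧ K₀ ≤ Cy D) →
    Module.finrank ℚ K₀ = n → ∀ (K L : Type)
    [Field K] [NumberField K] [Field L] [NumberField L] [Algebra K L] [IsGalois K L]
    {χ : (L ≃ₐ[K] L) → ℂ}, IsChar χ → (∀ g, χ g ∈ K₀) → A.val K L χ = 1 := by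
  intro n
  induction n using Nat.strong_induction_on with
  | _ n ih =>
    intro K₀ hK₀F hcyc hcy hn K L _ _ _ _ _ _ χ hχ hv
    obtain ⟨f, hf⟩ := exists_cond hcy
    refine main_field htf hm hf.1.ne' hf.2.1 hR hO ?_ K L hχ hv
    intro K L _ _ _ _ _ _ hK hin hde ψ hψ hψf
    have hfinL : FiniteDimensional K L := Module.Finite.of_restrictScalars_finite ℚ K L
    by_cases hd : Nat.card (L ≃ₐ[K] L) = f
    · exact hT K L hK hin hde K₀ f hK₀F hcyc hf ψ hψ hd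
    · set d := Nat.card (L ≃ₐ[K] L) with hdd
      have hd0 : 0 < d := Nat.card_pos
      have hψd : ψ ^ d = 1 := by
        apply MonoidHom.ext
        intro g
        rw [MonoidHom.pow_apply, ← map_pow, hdd, pow_card_eq_one', map_one]
        rfl
      have hdf : d ∣ f := by
        have h1 : IsCyclic (L ≃ₐ[K] L) :=
          isCyclic_of_injective_ringHom (Units.coeHom ℂ |>.comp ψ) (Units.val_injective.comp hψ)
        rw [hdd, ← IsCyclic.exponent_eq_card]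
        refine Monoid.exponent_dvd_of_forall_pow_eq_one fun g => hψ ?_
        rw [map_pow, map_one]
        exact DFunLike.congr_fun hψf g
      have hlt : d < f := lt_of_le_of_ne (Nat.le_of_dvd hf.1 hdf) hd
      have hK1 : K₀ ⊓ Cy d < K₀ := by
        refine lt_of_le_of_ne inf_le_left fun h => ?_
        have h1 := hf.2.2 d hd0 (inf_eq_left.mp h)
        omega
      have hfr := finrank_lt hcyc.1 hK1
      rw [hn] at hfr
      refine ih _ hfr (K₀ ⊓ Cy d) (inf_le_left.trans hK₀F) (hcyc.mono inf_le_left)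
        ⟨d, hd0.ne', inf_le_right⟩ rfl K L ?_ fun g => ?_
      · exact isChar_tr K₀ hf.1.ne' ψ
      · exact ⟨tr_mem hf.1.ne' hf.2.1 hψf g, tr_mem_cy hf.1.ne' hd0.ne' hψd g⟩

end main

end Pool.Agent.H504.CV
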