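import Mathlib
import Pool.Agent.H504.CV.Bas

/-!
# Powers of inductive invariants
-/

set_option autoImplicit false
set_option linter.unusedSectionVars false

namespace Pool.Agent.H504.CV

open NumberField Pool.Agent.K4H74 Pool.Agent.K4H74.ST Pool.Agent.K4H74.SK Pool.Agent.H600.SF
  Pool.Agent.K4H77.SL Pool.Agent.K4H34.NC Pool.Agent.K4H34.AL Pool.Agent.R389

lemma cexp_dvd_card (A : Type) [Group A] [Finite A] : cexp A ∣ Nat.card A := by
  have h0 : Nat.card A ≠ 0 := Nat.card_pos.ne'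
  conv_rhs => rw [← Nat.prod_factorization_pow_eq_self h0]
  rw [Finsupp.prod, Nat.support_factorization]
  refine Finset.prod_dvd_prod_of_dvd _ _ fun p _ => ?_
  split_ifs
  · exact pow_dvd_pow p (Nat.sub_le _ _)
  · exact one_dvd _

lemma cexp_pos (A : Type) [Group A] [Finite A] : 0 < cexp A :=
  Nat.pos_of_dvd_of_pos (cexp_dvd_card A) Nat.card_pos

lemma cexp_cyclic (A : Type) [CommGroup A] [Finite A] (h : IsCyclic A) : cexp A = 1 := by
  refine Finset.prod_eq_one fun p hp => if_neg ?_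
  have hpp : p.Prime := (Nat.mem_primeFactors.mp hp).1
  rw [not_lt]
  have := Fintype.ofFinite A
  classical
  have h1 := IsCyclic.card_pow_eq_one_le (α := A) hpp.pos
  rw [Nat.card_eq_fintype_card, Fintype.card_subtype]
  exact h1

section gen

variable {k Ω : Type} [Field k] [Field Ω] [Algebra k Ω] {F : IntermediateField k Ω}

lemma cexpF_pos (hF : Abl F) : 0 < cexpF F := by
  have := hF.1
  exact cexp_pos (F ≃ₐ[k] F)

lemma cexpF_dvd (hF : Abl F) : cexpF F ∣ Module.finrank k F := by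
  have := hF.1
  have := hF.2
  rw [← IsGalois.card_aut_eq_finrank]
  exact cexp_dvd_card (F ≃ₐ[k] F)

open scoped IsMulCommutative in
lemma cexpF_cyc (hF : Cyc F) : cexpF F = 1 := by
  have := hF.1
  have := hF.abl.2
  exact cexp_cyclic (F ≃ₐ[k] F) hF.2.2

end gen

section main

variable {M : Type} [CommGroup M] {A : ArtinInvariant M}

theorem main_abl (htf : ∀ (x : M) (k : ℕ), 0 < k → x ^ k = 1 → x = 1) {m : ℕ} (hm : m ≠ 0)
    {F : IntermediateField ℚ ℂ} (hF : ∃ D : ℕ, D ≠ 0 ∧ F ≤ Cy D) (hR : TrivOne A)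
    (hO : TrivOdd A) (hT : TrivC A m F) (K L : Type)
    [Field K] [NumberField K] [Field L] [NumberField L] [Algebra K L] [IsGalois K L]
    {χ : (L ≃ₐ[K] L) → ℂ} (hχ : IsChar χ) (hv : ∀ g, χ g ∈ F) : A.val K L χ = 1 := by
  obtain ⟨D, hD, hFD⟩ := hF
  have habl : Abl F := (abl_cy hD).mono hFD
  obtain ⟨r, θ, n, hθ, hrel⟩ := cyc_rel (E := ⟨K, L⟩) (χ := χ) (isChr_iff.mpr hχ) habl hv
  have h1 := cyc_rel_val (E := ⟨K, L⟩) (fun χ : (L ≃ₐ[K] L) → ℂ => A.val K L χ)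
    (fun a b ha hb => A.val_add K L a b (isChr_iff.mp ha) (isChr_iff.mp hb))
    (isChr_iff.mpr hχ) (fun i => (hθ i).1) hrel
  have h2 : ∀ i, A.val K L (θ i) = 1 := fun i =>
    main_cyc htf hm hR hO hT _ (vals (θ i)) (hθ i).2.1 (hθ i).2.2.1
      ⟨D, hD, (hθ i).2.1.trans hFD⟩ rfl K L (isChr_iff.mp (hθ i).1) (mem_vals (θ i))
  refine htf _ _ (cexpF_pos habl) ?_
  change A.val K L χ ^ cexpF F = _ at h1
  rw [h1]
  refine Finset.prod_eq_one fun i _ => ?_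
  change A.val K L (θ i) ^ n i = 1
  rw [h2 i, one_zpow]

/-- Torsion is allowed. -/
theorem main_abl_tor {m : ℕ} (hm : m ≠ 0)
    {F : IntermediateField ℚ ℂ} (hF : ∃ D : ℕ, D ≠ 0 ∧ F ≤ Cy D)
    (hR : TrivOne A) (hO : TrivOdd A) (hT : TrivC A m F) (K L : Type)
    [Field K] [NumberField K] [Field L] [NumberField L] [Algebra K L] [IsGalois K L]
    {χ : (L ≃ₐ[K] L) → ℂ} (hχ : IsChar χ) (hv : ∀ g, χ g ∈ F) : IsOfFinOrder (A.val K L χ) := by
  let T := CommGroup.torsion M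
  let B : ArtinInvariant (M ⧸ T) := mapInv (QuotientGroup.mk' T) A
  have htf : ∀ (x : M ⧸ T) (k : ℕ), 0 < k → x ^ k = 1 → x = 1 := by
    intro x k hk h
    obtain ⟨y, rfl⟩ := QuotientGroup.mk'_surjective T x
    rw [← map_pow] at h
    have h1 : IsOfFinOrder (y ^ k) := (QuotientGroup.eq_one_iff _).mp h
    exact (QuotientGroup.eq_one_iff _).mpr ((isOfFinOrder_pow.mp h1).resolve_right hk.ne')
  have key : B.val K L χ = 1 := by
    refine main_abl htf hm hF ?_ ?_ ?_ K L hχ hv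
    · intro K _ _
      change QuotientGroup.mk' T (A.val K K _) = 1
      rw [hR K, map_one]
    · intro K L _ _ _ _ _ _ hK ψ hψ
      change QuotientGroup.mk' T (A.val K L _) = 1
      rw [hO K L hK ψ hψ, map_one]
    · intro K L _ _ _ _ _ _ hK hin hde K₀ f h1 h2 h3 ψ hψ hψf
      change QuotientGroup.mk' T (A.val K L _) = 1
      rw [hT K L hK hin hde K₀ f h1 h2 h3 ψ hψ hψf, map_one]
  exact (QuotientGroup.eq_one_iff _).mp key

/-- An inductive invariant of a character to a suitable power is a product of powers of its values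
on the family. -/
theorem power_cyc (A : ArtinInvariant M) (T : Pair → Prop) {m : ℕ}
    (hm : m ≠ 0) {F : IntermediateField ℚ ℂ} (hF : ∃ D : ℕ, D ≠ 0 ∧ F ≤ Cy D)
    (h1 : ∀ (K : Type) [Field K] [NumberField K], T ⟨⟨K, K⟩, fun _ => 1⟩)
    (h2 : ∀ E : Ext, IsTotallyReal E.K → ∀ ψ : G E →* ℂˣ, (∀ t : G E, IsCC t → ψ t = -1) →
      T ⟨E, lin ψ⟩)
    (h3 : ∀ E : Ext, IsTotallyComplex E.K →
      (∀ P : Ideal (𝓞 E.L), P.IsMaximal → (∀ g ∈ Pool.Agent.K4H77.SL.inertia E.K P, g = 1) ∧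
        ((m : 𝓞 E.L) ∈ P → ∀ g ∈ Pool.Agent.K4H77.SL.decomp E.K P, g = 1)) →
      ∀ (K₀ : IntermediateField ℚ ℂ) (f : ℕ), K₀ ≤ F → Cyc K₀ → IsCond K₀ f →
      ∀ ψ : G E →* ℂˣ, Function.Injective ψ → Nat.card (G E) = f → T ⟨E, tr K₀ f ψ⟩)
    {E : Ext} {χ : G E → ℂ} (hχ : IsChr χ) (hv : ∀ g, χ g ∈ F) :
    ∃ n : ℕ, 0 < n ∧
      ∃ (r : ℕ) (x : Fin r → Pair) (k : Fin r → ℤ), (∀ i, T (x i)) ∧
      pval A ⟨E, χ⟩ ^ n = ∏ i, pval A (x i) ^ k i := by
  let P : Subgroup M := Subgroup.closure {y : M | ∃ x : Pair, T x ∧ y = pval A x}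
  let B : ArtinInvariant (M ⧸ P) := mapInv (QuotientGroup.mk' P) A
  have hB : ∀ x : Pair, T x → B.val x.1.K x.1.L x.2 = 1 := by
    intro x hx
    exact (QuotientGroup.eq_one_iff (N := P) _).mpr (Subgroup.subset_closure ⟨x, hx, rfl⟩)
  have i1 : TrivOne B := by
    intro K _ _
    exact hB _ (h1 K)
  have i2 : TrivC B m F := by
    intro K L _ _ _ _ _ _ hK hin hde K₀ f e1 e2 e3 ψ hψ hψf
    exact hB _ (h3 ⟨K, L⟩ hK (fun P hP => ⟨hin P hP, fun hm => hde P hP hm⟩) K₀ f e1 e2 e3 ψ hψ hψf)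
  have i3 : TrivOdd B := by
    intro K L _ _ _ _ _ _ hK ψ hψ
    refine hB _ (h2 ⟨K, L⟩ hK ψ ?_)
    rintro t ⟨φ, hφ⟩
    refine hψ φ t ?_
    ext x
    exact (hφ x).symm
  obtain ⟨n, hn, h5⟩ := isOfFinOrder_iff_pow_eq_one.mp
    (main_abl_tor hm hF i1 i3 i2 E.K E.L (isChr_iff.mp hχ) hv)
  refine ⟨n, hn, closure_form A T ?_⟩
  have h6 : B.val E.K E.L χ = QuotientGroup.mk' P (pval A ⟨E, χ⟩) := rfl
  rw [h6, ← map_pow] at h5
  exact (QuotientGroup.eq_one_iff _).mp h5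

end main

/-- the numbers `A(χ, φ)` for one `φ` -/
theorem exists_A {c : Pair → ℂ} (hc : IsLeading c) {E : Ext} {Λ : Y E →ₗ[ℂ] Y E}
    (hΛ : IsStarkMap Λ) : ∃ v : (G E → ℂ) → ℂˣ,
      (∀ a b, IsChr a → IsChr b → v (a + b) = v a * v b) ∧
      ∀ χ : G E → ℂ, IsChr χ → ∀ a : ℂ, SK.IsA c Λ χ a ↔ a = v χ := by
  classical
  obtain ⟨φ, hφ⟩ := exists_old hΛ
  have h1 : ∀ χ : G E → ℂ, ∃ v : ℂˣ, IsChr χ → SC.IsA (leadInv hc) φ χ v := by
    intro χ
    by_cases h : IsChr χ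
    · obtain ⟨a, ha⟩ := SC.IsA.exists (leadInv hc) φ (isChr_iff.mp h)
      exact ⟨Units.mk0 a ha.ne, fun _ => ha⟩
    · exact ⟨1, fun h' => absurd h' h⟩
  choose v hv using h1
  refine ⟨v, fun a b ha hb => ?_, fun χ hχ a => ?_⟩
  · exact Units.ext (SC.IsA.add (isChr_iff.mp ha) (isChr_iff.mp hb) (hv a ha) (hv b hb)
      (hv _ (isChr_add ha hb)))
  · have h2 : ∀ a a' : ℂ, SC.IsA (leadInv hc) φ χ a → SC.IsA (leadInv hc) φ χ a' → a = a' := by
      rintro a a' ⟨r, hr, rfl⟩ ⟨r', hr', rfl⟩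
      rw [hr.unique hr']
    constructor
    · intro h
      exact h2 _ _ (isA_old hc hφ (isChr_iff.mp hχ) h) (hv χ hχ)
    · rintro rfl
      exact isA_new hc hφ (isChr_iff.mp hχ) (hv χ hχ)

end Pool.Agent.H504.CV
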