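import Mathlib
import Pool.Agent.H504.CV.Pow

/-!
# Relations between Artin L-functions, and the basic characters: definitions and first lemmas
-/

set_option autoImplicit false
set_option linter.unusedSectionVars false

namespace Pool.Agent.H504.CV

open NumberField Pool.Agent.K4H74 Pool.Agent.K4H74.SK Pool.Agent.K4H77 Pool.Agent.K4H34.AL
  Pool.Agent.H600.SF

/-- The decomposition group of the ideal `P` of the integers of `L`. -/
def decompGroup {E : Ext} (P : Ideal (𝓞 E.L)) : Set (G E) :=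
  {g | ∀ x y : 𝓞 E.L, (y : E.L) = emb g x → (y ∈ P ↔ x ∈ P)}

/-- The inertia group of the ideal `P` of the integers of `L`. -/
def inertiaGroup {E : Ext} (P : Ideal (𝓞 E.L)) : Set (G E) :=
  {g | ∀ x y : 𝓞 E.L, (y : E.L) = emb g x → y - x ∈ P}

/-- `L / K` is unramified at all finite primes, and the primes above `m` split completely. -/
def UnramifiedSplit (m : ℕ) (E : Ext) : Prop :=
  ∀ P : Ideal (𝓞 E.L), P.IsMaximal → (∀ g ∈ inertiaGroup P, g = 1) ∧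
    ((m : 𝓞 E.L) ∈ P → ∀ g ∈ decompGroup P, g = 1)

lemma mem_decomp {E : Ext} {P : Ideal (𝓞 E.L)} (g : G E) :
    g ∈ decompGroup P ↔ (show E.L ≃ₐ[E.K] E.L from g) ∈ SL.decomp E.K P := by
  constructor
  · intro h x
    exact h x _ rfl
  · intro h x y hy
    have h1 : y = SL.gi (show E.L ≃ₐ[E.K] E.L from g) x := RingOfIntegers.ext hy
    rw [h1]
    exact h x

lemma mem_inertia {E : Ext} {P : Ideal (𝓞 E.L)} (g : G E) :
    g ∈ inertiaGroup P ↔ (show E.L ≃ₐ[E.K] E.L from g) ∈ SL.inertia E.K P := by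
  constructor
  · intro h x
    exact h x _ rfl
  · intro h x y hy
    have h1 : y = SL.gi (show E.L ≃ₐ[E.K] E.L from g) x := RingOfIntegers.ext hy
    rw [h1]
    exact h x

/-- The linear character `ψ` takes the value `-1` at all complex conjugations. -/
def TotallyOdd {E : Ext} (ψ : G E →* ℂˣ) : Prop := ∀ t : G E, IsCC t → ψ t = -1

/-- The basic characters for `m` and `F`: the trivial characters, the totally odd linear characters
of the extensions of the totally real fields (for these two types Stark's conjecture is known, by the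
class number formula and Siegel's theorem), and, for the cyclic number fields `K ⊆ F`, the traces over
`K` (the sums of the conjugates over `K`) of the faithful linear characters of the (cyclic) extensions
`E.L / E.K` whose degree is the conductor of `K`, `E.K` totally complex, which are unramified at all
finite primes and in which the primes above `m` split completely. -/
inductive Basic (m : ℕ) (F : IntermediateField ℚ ℂ) : Pair → Prop
  | trivial (E : Ext) : Basic m F ⟨E, fun _ => 1⟩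
  | odd (E : Ext) (ψ : G E →* ℂˣ) : IsTotallyReal E.K → TotallyOdd ψ → Basic m F ⟨E, lin ψ⟩
  | unramified (E : Ext) (ψ : G E →* ℂˣ) (K : IntermediateField ℚ ℂ) : IsTotallyComplex E.K →
      UnramifiedSplit m E → Function.Injective ψ → K ≤ F → Cyc K → IsCond K (Nat.card (G E)) →
      Basic m F ⟨E, tr K (Nat.card (G E)) ψ⟩

lemma isChr_one (E : Ext) : IsChr (fun _ : G E => (1 : ℂ)) := by
  have h1 := isChr_lin (E := E) 1
  have h2 : lin (1 : G E →* ℂˣ) = fun _ => 1 := by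
    funext g
    simp [lin]
  rwa [h2] at h1

lemma Basic.isChr {m : ℕ} {F : IntermediateField ℚ ℂ} {x : Pair} (h : Basic m F x) :
    IsChr x.2 := by
  cases h with
  | trivial E => exact isChr_one E
  | odd E ψ _ _ => exact isChr_lin ψ
  | unramified E ψ K _ _ _ _ _ hK =>
    have hfinL : FiniteDimensional E.K E.L := Module.Finite.of_restrictScalars_finite ℚ E.K E.L
    exact isChr_iff.mpr (isChar_tr (G := E.L ≃ₐ[E.K] E.L) K hK.1.ne' ψ)

/-- `a` is one of the numbers `A(χ, φ)`. -/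
def IsStarkNumber (c : Pair → ℂ) (x : Pair) (a : ℂ) : Prop :=
  ∃ Λ : Y x.1 →ₗ[ℂ] Y x.1, IsStarkMap Λ ∧ IsA c Λ x.2 a

/-- `L(s, y) ^ n = ∏ L(s, x_i) ^ (k_i)`, for the logarithms of the Artin L-functions, `Re s > 1`. -/
def LRel (y : Pair) (n : ℕ) {r : ℕ} (x : Fin r → Pair) (k : Fin r → ℤ) : Prop :=
  ∀ s : ℂ, 1 < s.re → ∀ (l : ℂ) (l' : Fin r → ℂ), HasSum (logTerm y.2 s) l →
    (∀ i, HasSum (logTerm (x i).2 s) (l' i)) → n * l = ∑ i, k i * l' i

/-- `d(y, σ) ^ n = ∏ d(x_i, σ) ^ (k_i)` for the defects, for all `σ`. -/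
def DRel (c : Pair → ℂ) (y : Pair) (n : ℕ) {r : ℕ} (x : Fin r → Pair) (k : Fin r → ℤ) : Prop :=
  ∀ (σ : ℂ ≃+* ℂ) (d : ℂˣ) (d' : Fin r → ℂˣ), IsDefect c σ y.2 d →
    (∀ i, IsDefect c σ (x i).2 (d' i)) → d ^ n = ∏ i, d' i ^ k i

section rel

variable {c : Pair → ℂ} (hc : IsLeading c) {y : Pair} {n r : ℕ} {x : Fin r → Pair}
  {k : Fin r → ℤ} (hy : IsChr y.2) (hx : ∀ i, IsChr (x i).2)

include hy hx

lemma rel_all (h : pval (allInv hc) y ^ n = ∏ i, pval (allInv hc) (x i) ^ k i) :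
    LRel y n x k ∧ c y ^ n = ∏ i, c (x i) ^ k i ∧ DRel c y n x k := by
  obtain ⟨r1, r2, r3, -⟩ := all_rel hc h
  refine ⟨fun s hs l l' hl hl' => log_rel r1 hs hl hl', ?_, ?_⟩
  · have h1 := congrArg (Units.val) r2
    rw [Units.val_pow_eq_pow_val, pval_lead hc hy, Units.coe_prod] at h1
    rw [h1]
    exact Finset.prod_congr rfl fun i _ => by
      rw [Units.val_zpow_eq_zpow_val, pval_lead hc (hx i)]
  · intro σ d d' hd hd'
    have h1 := r3 σ
    rw [pval_defect hc σ hy hd] at h1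
    rw [h1]
    exact Finset.prod_congr rfl fun i _ => by rw [pval_defect hc σ (hx i) (hd' i)]

/-- the numbers `A(χ, φ)` up to algebraic factors -/
lemma rel_alg (h : pval (allInv hc) y ^ n = ∏ i, pval (allInv hc) (x i) ^ k i) (a : ℂ)
    (a' : Fin r → ℂ) (ha : IsStarkNumber c y a) (ha' : ∀ i, IsStarkNumber c (x i) (a' i)) :
    ∃ α : ℂ, IsAlgebraic ℚ α ∧ a ^ n = α * ∏ i, a' i ^ k i := by
  obtain ⟨-, -, -, r4⟩ := all_rel hc h
  obtain ⟨Λ, hΛ, ha⟩ := ha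
  choose Λ' hΛ' ha' using ha'
  have ha0 : a ≠ 0 := isA_ne hc hy hΛ ha
  have ha0' : ∀ i, a' i ≠ 0 := fun i => isA_ne hc (hx i) (hΛ' i) (ha' i)
  have e1 : pval (algInv (leadInv hc)) y = (Units.mk0 a ha0 : ℂˣ) := pval_alg hc hy hΛ ha
  have e2 : ∀ i, pval (algInv (leadInv hc)) (x i) = (Units.mk0 (a' i) (ha0' i) : ℂˣ) :=
    fun i => pval_alg hc (hx i) (hΛ' i) (ha' i)
  have h1 : ((Units.mk0 a ha0 ^ n : ℂˣ) : ℂˣ ⧸ algU)
      = ((∏ i, Units.mk0 (a' i) (ha0' i) ^ k i : ℂˣ) : ℂˣ ⧸ algU) := by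
    change (QuotientGroup.mk' algU) _ = (QuotientGroup.mk' algU) _
    rw [map_pow, map_prod]
    change ((Units.mk0 a ha0 : ℂˣ) : ℂˣ ⧸ algU) ^ n = _
    rw [← e1, r4]
    exact Finset.prod_congr rfl fun i _ => by rw [map_zpow, e2]; rfl
  rw [QuotientGroup.eq, mem_algU] at h1
  set P : ℂˣ := ∏ i, Units.mk0 (a' i) (ha0' i) ^ k i with hP
  refine ⟨((P⁻¹ * Units.mk0 a ha0 ^ n : ℂˣ) : ℂ), ?_, ?_⟩
  · have h2 : P⁻¹ * Units.mk0 a ha0 ^ n = ((Units.mk0 a ha0 ^ n)⁻¹ * P)⁻¹ := by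
      rw [mul_inv_rev, inv_inv]
    rw [h2, Units.val_inv_eq_inv_val]
    exact h1.inv
  · have h2 : ∏ i, a' i ^ k i = (P : ℂ) := by
      rw [hP, Units.coe_prod]
      exact Finset.prod_congr rfl fun i _ => by
        rw [Units.val_zpow_eq_zpow_val, Units.val_mk0]
    rw [h2, ← Units.val_mul, mul_comm, mul_inv_cancel_left, Units.val_pow_eq_pow_val,
      Units.val_mk0]

end rel

/-- the relation between a character and its traces, for all the invariants -/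
theorem same_ext {c : Pair → ℂ} (hc : IsLeading c) {E : Ext} {χ : G E → ℂ} (hχ : IsChr χ) :
    ∃ (r : ℕ) (θ : Fin r → G E → ℂ) (n : Fin r → ℤ),
      (∀ i, IsChr (θ i) ∧ vals (θ i) ≤ vals χ ∧ Cyc (vals (θ i)) ∧
        ∃ (m : ℕ) (τ : Fin m → ℂ ≃+* ℂ), ∀ g, θ i g = ∑ j, τ j (χ g)) ∧
      cexpF (vals χ) • χ = ∑ i, n i • θ i ∧
      LRel ⟨E, χ⟩ (cexpF (vals χ)) (fun i => ⟨E, θ i⟩) n ∧
      c ⟨E, χ⟩ ^ cexpF (vals χ) = ∏ i, c ⟨E, θ i⟩ ^ n i ∧
      DRel c ⟨E, χ⟩ (cexpF (vals χ)) (fun i => ⟨E, θ i⟩) n ∧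
      ∀ Λ : Y E →ₗ[ℂ] Y E, IsStarkMap Λ → ∀ (a : ℂ) (a' : Fin r → ℂ), IsA c Λ χ a →
        (∀ i, IsA c Λ (θ i) (a' i)) → a ^ cexpF (vals χ) = ∏ i, a' i ^ n i := by
  obtain ⟨r, θ, n, hθ, hrel⟩ := cyc_rel hχ (abl_vals hχ) (mem_vals χ)
  have h1 := cyc_rel_val (fun χ : G E → ℂ => pval (allInv hc) ⟨E, χ⟩)
    (fun a b ha hb => (allInv hc).val_add E.K E.L a b (isChr_iff.mp ha) (isChr_iff.mp hb))
    hχ (fun i => (hθ i).1) hrel
  obtain ⟨h2, h3, h4⟩ := rel_all hc (y := ⟨E, χ⟩) (x := fun i => ⟨E, θ i⟩) hχ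
    (fun i => (hθ i).1) h1
  refine ⟨r, θ, n, hθ, hrel, h2, h3, h4, fun Λ hΛ a a' ha ha' => ?_⟩
  obtain ⟨v, hv, hva⟩ := exists_A hc hΛ
  have h5 := cyc_rel_val v hv hχ (fun i => (hθ i).1) hrel
  have h6 := congrArg (Units.val) h5
  rw [Units.val_pow_eq_pow_val, Units.coe_prod, ← (hva χ hχ a).mp ha] at h6
  rw [h6]
  exact Finset.prod_congr rfl fun i _ => by
    rw [Units.val_zpow_eq_zpow_val, ← (hva _ (hθ i).1 (a' i)).mp (ha' i)]

/-- the relation with the basic characters -/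
theorem basic_ext {c : Pair → ℂ} (hc : IsLeading c) {m : ℕ} (hm : m ≠ 0)
    {F : IntermediateField ℚ ℂ} (hF : ∃ D : ℕ, D ≠ 0 ∧ F ≤ Cy D) {E : Ext} {χ : G E → ℂ}
    (hχ : IsChr χ) (hv : ∀ g, χ g ∈ F) : ∃ n : ℕ, 0 < n ∧
      ∃ (r : ℕ) (x : Fin r → Pair) (k : Fin r → ℤ), (∀ i, Basic m F (x i)) ∧
        LRel ⟨E, χ⟩ n x k ∧ c ⟨E, χ⟩ ^ n = ∏ i, c (x i) ^ k i ∧ DRel c ⟨E, χ⟩ n x k ∧
        ∀ (a : ℂ) (a' : Fin r → ℂ), IsStarkNumber c ⟨E, χ⟩ a →
          (∀ i, IsStarkNumber c (x i) (a' i)) →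
            ∃ α : ℂ, IsAlgebraic ℚ α ∧ a ^ n = α * ∏ i, a' i ^ k i := by
  obtain ⟨n, hn, r, x, k, hx, h⟩ := power_cyc (allInv hc) (Basic m F) hm hF
    (fun K _ _ => Basic.trivial ⟨K, K⟩)
    (fun E hE ψ hψ => Basic.odd E ψ hE hψ)
    (fun E hE hP K₀ f h1 h2 h3 ψ hψ hψe => by
      subst hψe
      exact Basic.unramified E ψ K₀ hE (fun P hPm =>
        ⟨fun g hg => (hP P hPm).1 g ((mem_inertia g).mp hg),
          fun hmP g hg => (hP P hPm).2 hmP g ((mem_decomp g).mp hg)⟩) hψ h1 h2 h3) hχ hv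
  obtain ⟨h2, h3, h4⟩ := rel_all hc (y := ⟨E, χ⟩) (x := x) hχ (fun i => (hx i).isChr) h
  exact ⟨n, hn, r, x, k, hx, h2, h3, h4,
    rel_alg hc (y := ⟨E, χ⟩) (x := x) hχ (fun i => (hx i).isChr) h⟩

/-- every character has a number `A(χ, φ)` -/
lemma exists_starkNumber {c : Pair → ℂ} (hc : IsLeading c) {x : Pair} (hx : IsChr x.2) :
    ∃ a, IsStarkNumber c x a := by
  have h' := isChr_iff.mp hx
  obtain ⟨φ⟩ := SC.exists_StarkMap (L := x.1.L) x.1.K
  obtain ⟨a, ha⟩ := SC.IsA.exists (leadInv hc) φ h'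
  obtain ⟨Λ, hΛ, hφ⟩ := exists_new φ
  exact ⟨a, Λ, hΛ, isA_new hc hφ h' ha⟩

end Pool.Agent.H504.CV
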