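import Mathlib
import Pool.Agent.H504.CV.Stm

/-!
# The relation over `ℚ`
-/

set_option autoImplicit false
set_option linter.unusedSectionVars false

namespace Pool.Agent.H504.CV

open NumberField Pool.Agent.K4H74 Pool.Agent.K4H74.ST Pool.Agent.K4H74.SK Pool.Agent.K4H34.AL
  Pool.Agent.H600.SF

lemma indChar_mem {K F L : Type} [Field K] [Field F] [Field L] [Algebra K F] [Algebra F L]
    [Algebra K L] [IsScalarTower K F L] {χ : (L ≃ₐ[F] L) → ℂ} {V : IntermediateField ℚ ℂ}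
    (h : ∀ g, χ g ∈ V) (g : L ≃ₐ[K] L) : indChar K F L χ g ∈ V := by
  rw [indChar]
  refine mul_mem (inv_mem (natCast_mem _ _)) ?_
  refine finsum_induction (· ∈ V) (zero_mem _) (fun _ _ => add_mem) fun x => ?_
  refine finsum_induction (· ∈ V) (zero_mem _) (fun _ _ => add_mem) fun u => ?_
  exact finsum_induction (· ∈ V) (zero_mem _) (fun _ _ => add_mem) fun _ => h u

/-- every character comes from a character over `ℚ` -/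
theorem base_Q {E : Ext} {χ : G E → ℂ} (hχ : IsChr χ) :
    ∃ (N : Type) (_ : Field N) (_ : NumberField N) (_ : IsGalois ℚ N)
      (X : G (⟨ℚ, N⟩ : Ext) → ℂ), Nonempty (E.L →+* N) ∧ IsChr X ∧ vals X ≤ vals χ ∧
        ∀ (M : Type) [CommGroup M] (A : ArtinInvariant M),
          pval A ⟨⟨ℚ, N⟩, X⟩ = pval A ⟨E, χ⟩ := by
  obtain ⟨N, i1, i2, i3, i4⟩ := Pool.Agent.K4H34.ST.exists_gal E.L
  let _ : Algebra E.K N := ((algebraMap E.L N).comp (algebraMap E.K E.L)).toAlgebra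
  have htow : IsScalarTower E.K E.L N := IsScalarTower.of_algebraMap_eq fun x => rfl
  have htow2 : IsScalarTower ℚ E.K N := inferInstance
  have hgal : IsGalois E.K N := IsGalois.tower_top_of_isGalois ℚ E.K N
  have h7 : IsChar (G := E.L ≃ₐ[E.K] E.L) χ := isChr_iff.mp hχ
  have h8 : IsChar (fun g : N ≃ₐ[E.K] N =>
      (show (E.L ≃ₐ[E.K] E.L) → ℂ from χ) (AlgEquiv.restrictNormalHom E.L g)) :=
    Pool.Agent.K4H77.SL.IsChar.comp h7 _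
  refine ⟨N, i1, i2, i4, indChar ℚ E.K N (fun g : N ≃ₐ[E.K] N =>
      (show (E.L ≃ₐ[E.K] E.L) → ℂ from χ) (AlgEquiv.restrictNormalHom E.L g)),
    ⟨algebraMap E.L N⟩, ?_, ?_, fun M _ A => ?_⟩
  · exact isChr_iff.mpr (Pool.Agent.K4H74.SC.isChar_indChar h8)
  · exact vals_le fun g => indChar_mem (fun u => mem_vals χ _) g
  · change A.val ℚ N _ = A.val E.K E.L χ
    rw [← A.val_infl E.K E.L N χ h7, ← A.val_ind ℚ E.K N _ h8]

/-- the relation between a character and its traces, for all the invariants, over `ℚ` -/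
theorem over_Q {c : Pair → ℂ} (hc : IsLeading c) {E : Ext} {χ : G E → ℂ} (hχ : IsChr χ) :
    ∃ (N : Type) (_ : Field N) (_ : NumberField N) (_ : IsGalois ℚ N)
      (r : ℕ) (θ : Fin r → G (⟨ℚ, N⟩ : Ext) → ℂ) (n : Fin r → ℤ),
      Nonempty (E.L →+* N) ∧
      (∀ i, IsChr (θ i) ∧ vals (θ i) ≤ vals χ ∧ Cyc (vals (θ i))) ∧
      LRel ⟨E, χ⟩ (cexpF (vals χ)) (fun i => ⟨⟨ℚ, N⟩, θ i⟩) n ∧
      c ⟨E, χ⟩ ^ cexpF (vals χ) = ∏ i, c ⟨⟨ℚ, N⟩, θ i⟩ ^ n i ∧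
      DRel c ⟨E, χ⟩ (cexpF (vals χ)) (fun i => ⟨⟨ℚ, N⟩, θ i⟩) n ∧
      ∀ (a : ℂ) (a' : Fin r → ℂ), IsStarkNumber c ⟨E, χ⟩ a →
        (∀ i, IsStarkNumber c ⟨⟨ℚ, N⟩, θ i⟩ (a' i)) →
          ∃ α : ℂ, IsAlgebraic ℚ α ∧ a ^ cexpF (vals χ) = α * ∏ i, a' i ^ n i := by
  obtain ⟨N, i1, i2, i3, X, hN, hX, hle, hA⟩ := base_Q hχ
  obtain ⟨r, θ, n, hθ, hrel⟩ := cyc_rel hX (abl_vals hχ) (fun g => hle (mem_vals X g))
  have h1 := cyc_rel_val (fun χ : G (⟨ℚ, N⟩ : Ext) → ℂ => pval (allInv hc) ⟨⟨ℚ, N⟩, χ⟩)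
    (fun a b ha hb => (allInv hc).val_add ℚ N a b (isChr_iff.mp ha) (isChr_iff.mp hb))
    hX (fun i => (hθ i).1) hrel
  have h1' : pval (allInv hc) ⟨E, χ⟩ ^ cexpF (vals χ)
      = ∏ i, pval (allInv hc) ⟨⟨ℚ, N⟩, θ i⟩ ^ n i := by
    rw [← hA _ (allInv hc)]
    exact h1
  obtain ⟨h2, h3, h4⟩ := rel_all hc (y := ⟨E, χ⟩) (x := fun i => ⟨⟨ℚ, N⟩, θ i⟩) hχ
    (fun i => (hθ i).1) h1'
  exact ⟨N, i1, i2, i3, r, θ, n, hN, fun i => ⟨(hθ i).1, (hθ i).2.1, (hθ i).2.2.1⟩, h2, h3, h4,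
    rel_alg hc (y := ⟨E, χ⟩) (x := fun i => ⟨⟨ℚ, N⟩, θ i⟩) hχ (fun i => (hθ i).1) h1'⟩

end Pool.Agent.H504.CV
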