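import Mathlib
import Pool.Agent.H504.CV.Stm

/-!
# The coefficients of the logarithms of the Artin L-functions
-/

set_option autoImplicit false
set_option linter.unusedSectionVars false

namespace Pool.Agent.H504.CV

open NumberField Pool.Agent.K4H74 Pool.Agent.K4H74.SK Pool.Agent.H600.SF

/-- the norm of a prime power -/
noncomputable def nrm (E : Ext) (x : Pr E × ℕ+) : ℕ := Ideal.absNorm x.1.1 ^ (x.2 : ℕ)

/-- the coefficient at `m ^ (-s)` of `log L(s, x)` -/
noncomputable def coef (x : Pair) (m : ℕ) : ℂ :=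
  ∑' i : nrm x.1 ⁻¹' {m}, frobMean x.2 i.1.1.1 i.1.2 / ((i.1.2 : ℕ) : ℂ)

lemma nrm_pos {E : Ext} (x : Pr E × ℕ+) : nrm E x ≠ 0 := by
  refine pow_ne_zero _ ?_
  have := x.1.2.1
  exact Ideal.absNorm_ne_zero_of_nonZeroDivisors ⟨x.1.1, mem_nonZeroDivisors_of_ne_zero x.1.2.2⟩

lemma hasSum_coef {x : Pair} {s : ℂ} {l : ℂ} (h : HasSum (logTerm x.2 s) l) :
    LSeriesHasSum (coef x) s l := by
  have h1 := h.tsum_fiberwise (nrm x.1)
  have h2 : (fun m : ℕ => ∑' i : nrm x.1 ⁻¹' {m}, logTerm x.2 s i) = LSeries.term (coef x) s := by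
    funext m
    by_cases hm : m = 0
    · subst hm
      rw [LSeries.term_zero]
      have : IsEmpty (nrm x.1 ⁻¹' {0}) := ⟨fun i => nrm_pos i.1 i.2⟩
      exact tsum_empty
    · rw [LSeries.term_of_ne_zero hm, coef, ← tsum_div_const]
      refine tsum_congr fun i => ?_
      have h3 : (((i.1.2 : ℕ) : ℂ) * s : ℂ) = ((i.1.2 : ℕ) : ℂ) * s := rfl
      have h4 : nrm x.1 i.1 = m := i.2
      rw [logTerm, Complex.natCast_cpow_natCast_mul, ← Nat.cast_pow, ← div_div]
      change _ / ((nrm x.1 i.1 : ℕ) : ℂ) ^ s = _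
      rw [h4]
  rw [h2] at h1
  exact h1

/-- relations between the L-functions are relations between the coefficients -/
theorem coef_rel {y : Pair} {n r : ℕ} {x : Fin r → Pair} {k : Fin r → ℤ} (h : LRel y n x k)
    {m : ℕ} (hm : m ≠ 0) : n * coef y m = ∑ i, k i * coef (x i) m := by
  classical
  set f : ℕ → ℂ := (n : ℂ) • coef y - ∑ i, (k i : ℂ) • coef (x i) with hf
  have h1 : ∀ s : ℂ, 1 < s.re → LSeriesHasSum f s 0 := by
    intro s hs
    obtain ⟨l, hl⟩ := logTerm_summable y.2 hs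
    choose l' hl' using fun i => logTerm_summable (x i).2 hs
    have h2 := (hasSum_coef hl).smul (n : ℂ)
    have h3 := LSeriesHasSum.sum (S := Finset.univ) (f := fun i => (k i : ℂ) • coef (x i))
      (a := fun i => (k i : ℂ) * l' i) (s := s) fun i _ => (hasSum_coef (hl' i)).smul (k i : ℂ)
    have h4 := h2.sub h3
    have h5 := h s hs l l' hl hl'
    have h6 : (n : ℂ) * l - ∑ i, (k i : ℂ) * l' i = 0 := by rw [h5, sub_self]
    rw [h6] at h4
    exact h4
  have h7 : (fun x : ℝ => LSeries f x) =ᶠ[Filter.atTop] 0 := by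
    filter_upwards [Filter.eventually_gt_atTop (1 : ℝ)] with t ht
    exact (h1 t (by simpa using ht)).LSeries_eq
  have h8 : LSeries.abscissaOfAbsConv f ≠ ⊤ := by
    have h9 := (h1 2 (by norm_num)).LSeriesSummable.abscissaOfAbsConv_le
    intro h10
    rw [h10, top_le_iff] at h9
    exact EReal.coe_ne_top _ h9
  have h11 := (LSeries_eventually_eq_zero_iff'.mp h7).resolve_right h8 m hm
  rw [hf, Pi.sub_apply, Pi.smul_apply, Finset.sum_apply, sub_eq_zero] at h11
  simp only [Pi.smul_apply, smul_eq_mul] at h11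
  exact h11

lemma frobMean_mem {E : Ext} (χ : G E → ℂ) (p : Ideal (𝓞 E.K)) (n : ℕ) :
    frobMean χ p n ∈ vals χ := by
  rw [frobMean]
  refine div_mem ?_ (natCast_mem _ _)
  exact finsum_mem_induction (· ∈ vals χ) (zero_mem _) (fun _ _ => add_mem) fun x _ => mem_vals χ x.2

/-- the fibre over a prime number -/
lemma fib_prime {E : Ext} {l : ℕ} (hl : l.Prime) {i : Pr E × ℕ+} (hi : nrm E i = l) :
    (i.2 : ℕ) = 1 ∧ Ideal.absNorm i.1.1 = l := by
  have h1 : (i.2 : ℕ) = 1 := by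
    have h2 : (nrm E i).Prime := hi ▸ hl
    exact Nat.Prime.eq_one_of_pow h2
  refine ⟨h1, ?_⟩
  rw [nrm, h1, pow_one] at hi
  exact hi

lemma fib_finite {E : Ext} {l : ℕ} (hl : l.Prime) : Finite (nrm E ⁻¹' {l}) := by
  have h1 : {I : Ideal (𝓞 E.K) | Ideal.absNorm I = l}.Finite :=
    Ideal.finite_setOfPred_absNorm_eq l
  have := h1.to_subtype
  refine Finite.of_injective
    (fun i : nrm E ⁻¹' {l} => (⟨i.1.1.1, (fib_prime hl i.2).2⟩ :
      {I : Ideal (𝓞 E.K) | Ideal.absNorm I = l})) ?_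
  intro i j hij
  have h2 := congrArg (fun z : {I : Ideal (𝓞 E.K) | Ideal.absNorm I = l} => z.1) hij
  change i.1.1.1 = j.1.1.1 at h2
  apply Subtype.ext
  refine Prod.ext (Subtype.ext h2) (PNat.coe_injective ?_)
  rw [(fib_prime hl i.2).1, (fib_prime hl j.2).1]

lemma coef_mem (x : Pair) {l : ℕ} (hl : l.Prime) : coef x l ∈ vals x.2 := by
  have := fib_finite (E := x.1) hl
  have := Fintype.ofFinite (nrm x.1 ⁻¹' {l})
  rw [coef, tsum_fintype]
  exact sum_mem fun i _ => div_mem (frobMean_mem _ _ _) (natCast_mem _ _)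

end Pool.Agent.H504.CV
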