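import Mathlib
import Pool.Agent.H504.CV.Ser
import Pool.Graph.R_pool_sql_team_seeded_3997aac3.Q14.AR.Cheb

/-!
# Over `ℚ` all the values of a character are coefficients
-/

set_option autoImplicit false
set_option linter.unusedSectionVars false

namespace Pool.Agent.H504.CV

open NumberField IsDedekindDomain Pool.Agent.K4H74 Pool.Agent.K4H74.SK Pool.Agent.H600.SF
  Pool.Agent.Q92.AR

/-- each prime contains a prime number -/
theorem exists_prime_in {F : Type} [Field F] [NumberField F] (v : HeightOneSpectrum (𝓞 F)) :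
    ∃ p : ℕ, p.Prime ∧ (p : 𝓞 F) ∈ v.asIdeal := by
  have key : ∀ n : ℕ, n ≠ 0 → (n : 𝓞 F) ∈ v.asIdeal → ∃ p : ℕ, p.Prime ∧ (p : 𝓞 F) ∈ v.asIdeal := by
    intro n
    induction n using Nat.strong_induction_on with
    | _ n ih =>
      intro hn hv
      have hn1 : n ≠ 1 := by
        rintro rfl
        apply v.isPrime.ne_top
        rw [Ideal.eq_top_iff_one]
        rw [Nat.cast_one] at hv
        exact hv
      obtain ⟨q, hq, c, rfl⟩ := Nat.exists_prime_and_dvd hn1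
      rw [Nat.cast_mul] at hv
      rcases v.isPrime.mem_or_mem hv with h | h
      · exact ⟨q, hq, h⟩
      · have hc : c ≠ 0 := by
          rintro rfl
          exact hn (mul_zero q)
        refine ih c ?_ hc h
        have := hq.two_le
        have := Nat.pos_of_ne_zero hc
        nlinarith
  exact key (Ideal.absNorm v.asIdeal)
    (Ideal.absNorm_ne_zero_of_nonZeroDivisors ⟨v.asIdeal, mem_nonZeroDivisors_of_ne_zero v.ne_bot⟩)
    (Ideal.absNorm_mem v.asIdeal)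

theorem rat_prime_span {p : ℕ} (hp : p.Prime) {P : Ideal (𝓞 ℚ)} (hP : P.IsPrime)
    (hv : (p : 𝓞 ℚ) ∈ P) : P = Ideal.span {(p : 𝓞 ℚ)} := by
  apply le_antisymm
  · intro x hx
    obtain ⟨a, rfl⟩ : ∃ a : ℤ, (a : 𝓞 ℚ) = x := by
      refine ⟨Rat.ringOfIntegersEquiv x, ?_⟩
      apply Rat.ringOfIntegersEquiv.injective
      rw [map_intCast]
      simp
    by_cases hpa : (p : ℤ) ∣ a
    · obtain ⟨b, rfl⟩ := hpa
      rw [Int.cast_mul, Int.cast_natCast]
      exact Ideal.mul_mem_right _ _ (Ideal.mem_span_singleton_self _)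
    · exfalso
      have hcop : IsCoprime (p : ℤ) a :=
        (Prime.coprime_iff_not_dvd (Nat.prime_iff_prime_int.1 hp)).2 hpa
      obtain ⟨r, s, hrs⟩ := hcop
      apply hP.ne_top
      rw [Ideal.eq_top_iff_one]
      have h1 : ((r * p + s * a : ℤ) : 𝓞 ℚ) ∈ P := by
        rw [Int.cast_add, Int.cast_mul, Int.cast_mul, Int.cast_natCast]
        exact add_mem (Ideal.mul_mem_left _ _ hv) (Ideal.mul_mem_left _ _ hx)
      rw [hrs, Int.cast_one] at h1
      exact h1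
  · rw [Ideal.span_singleton_le_iff_mem]
    exact hv

theorem absNorm_rat {p : ℕ} (hp : p.Prime) {P : Ideal (𝓞 ℚ)} (hP : P.IsPrime)
    (hv : (p : 𝓞 ℚ) ∈ P) : Ideal.absNorm P = p := by
  rw [rat_prime_span hp hP hv, Ideal.absNorm_span_singleton]
  have h1 : Algebra.norm ℤ ((p : ℕ) : 𝓞 ℚ) = (p : ℤ) ^ (Module.finrank ℤ (𝓞 ℚ)) := by
    have h2 := Algebra.norm_algebraMap (R := ℤ) (S := 𝓞 ℚ) (p : ℤ)
    rw [← h2]
    congr 1
  rw [h1, RingOfIntegers.rank, Module.finrank_self, pow_one, Int.natAbs_natCast]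

section

variable {K L : Type} [Field K] [NumberField K] [Field L] [NumberField L] [Algebra K L]
  [IsGalois K L]

/-- the mean over the Frobenius elements at an unramified prime -/
theorem frobMean_unram {v : HeightOneSpectrum (𝓞 K)} (hu : Unramified L v) {g : L ≃ₐ[K] L}
    (hF : IsFrobenius v g) {χ : (L ≃ₐ[K] L) → ℂ}
    (hχ : ∀ g x : L ≃ₐ[K] L, χ (x * g * x⁻¹) = χ g) : SC.frobMean K L χ v.asIdeal 1 = χ g := by
  classical
  have hfinL : FiniteDimensional K L := Module.Finite.of_restrictScalars_finite ℚ K L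
  have : Fintype (L ≃ₐ[K] L) := Fintype.ofFinite _
  obtain ⟨w, hw, hwv, hg⟩ := hF
  have h1 : w.IsPrime := hw.isPrime
  have h2 : w.LiesOver v.asIdeal := ⟨hwv.symm⟩
  have h3 : v.asIdeal.IsPrime := v.isPrime
  have hw0 : w ≠ ⊥ := by
    rintro rfl
    apply v.ne_bot
    rw [← hwv, ← RingHom.ker_eq_comap_bot]
    exact (RingHom.injective_iff_ker_eq_bot _).1 (FaithfulSMul.algebraMap_injective (𝓞 K) (𝓞 L))
  have hFr : SC.Fr w (Ideal.absNorm v.asIdeal ^ 1) g := by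
    intro y
    obtain ⟨z, hz, hzy⟩ := hg y
    have h4 : g • y - y ^ (Ideal.absNorm v.asIdeal ^ 1) = z := by
      apply RingOfIntegers.ext
      rw [pow_one, hzy]
      rfl
    rw [h4]
    exact hz
  have he : v.asIdeal.ramificationIdxIn (𝓞 L) = 1 := by
    rw [Ideal.ramificationIdxIn_eq_ramificationIdx v.asIdeal w (L ≃ₐ[K] L),
      ← Ideal.ramificationIdx'_eq_ramificationIdx v.asIdeal w v.ne_bot]
    refine Ideal.ramificationIdx'_spec ?_ ?_
    · rw [pow_one, Ideal.map_le_iff_le_comap]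
      exact hwv.ge
    · exact hu ⟨w, h1, hw0⟩ (HeightOneSpectrum.ext hwv)
  have hI : Nat.card (w.inertia (L ≃ₐ[K] L)) = 1 := by
    rw [SC.card_inertia (p := v.asIdeal), he]
  have hsub : Subsingleton (w.inertia (L ≃ₐ[K] L)) := (Nat.card_eq_one_iff_unique.mp hI).1
  rw [SC.frobMean_eq hχ v.ne_bot 1 w, SC.frSum_eq hFr, he, Nat.cast_one, div_one,
    Fintype.sum_subsingleton _ (1 : w.inertia (L ≃ₐ[K] L))]
  rw [OneMemClass.coe_one, one_mul]

end

lemma chr_conj {G : Type} [Group G] {χ : G → ℂ} (hχ : IsChr χ) (g x : G) :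
    χ (x * g * x⁻¹) = χ g := by
  obtain ⟨n, ρ, hρ⟩ := hχ
  rw [hρ, hρ, map_mul, map_mul, Matrix.trace_mul_cycle, ← map_mul, inv_mul_cancel, map_one,
    one_mul]

/-- Over `ℚ` every value of a character is a coefficient. -/
theorem exists_coef {L : Type} [Field L] [NumberField L] [IsGalois ℚ L]
    {χ : G (⟨ℚ, L⟩ : Ext) → ℂ} (hχ : IsChr χ) (g : G (⟨ℚ, L⟩ : Ext)) :
    ∃ l : ℕ, l.Prime ∧ coef ⟨⟨ℚ, L⟩, χ⟩ l = χ g := by
  obtain ⟨v, -, hu, hF⟩ := Pool.Agent.Q14.AR.cheb ℚ L g ∅ Set.finite_empty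
  obtain ⟨p, hp, hpv⟩ := exists_prime_in v
  refine ⟨p, hp, ?_⟩
  have hconj : ∀ g x : L ≃ₐ[ℚ] L, χ (x * g * x⁻¹) = χ g := chr_conj hχ
  have h1 := frobMean_unram hu hF hconj
  have hN : Ideal.absNorm v.asIdeal = p := absNorm_rat hp v.isPrime hpv
  let i₀ : nrm (⟨ℚ, L⟩ : Ext) ⁻¹' {p} := ⟨(⟨v.asIdeal, v.isPrime, v.ne_bot⟩, 1), by
    change Ideal.absNorm v.asIdeal ^ ((1 : ℕ+) : ℕ) = p
    rw [PNat.one_coe, pow_one, hN]⟩
  have huniq : ∀ i : nrm (⟨ℚ, L⟩ : Ext) ⁻¹' {p}, i = i₀ := by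
    intro i
    obtain ⟨h2, h3⟩ := fib_prime hp i.2
    have h4 : i.1.1.1 = v.asIdeal := by
      have h5 := Ideal.absNorm_mem i.1.1.1
      rw [h3] at h5
      exact (rat_prime_span hp i.1.1.2.1 h5).trans (rat_prime_span hp v.isPrime hpv).symm
    apply Subtype.ext
    refine Prod.ext (Subtype.ext h4) (PNat.coe_injective ?_)
    rw [h2]
    rfl
  rw [coef, tsum_eq_single i₀ fun i hi => absurd (huniq i) hi]
  change frobMean χ v.asIdeal ((1 : ℕ+) : ℕ) / (((1 : ℕ+) : ℕ) : ℂ) = χ g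
  rw [PNat.one_coe, Nat.cast_one, div_one, frobMean_eq]
  exact h1

end Pool.Agent.H504.CV
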