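import Mathlib
import Pool.Agent.H504.RV.Rel

/-!
# The ideal of the sums over the groups `Gal(V / V ∩ F)`: definitions
-/

set_option autoImplicit false

namespace Pool.Agent.H504.CV

/-- The integer `n` lies in the left ideal of `ℤ[Gal(V / k)]` generated by the sums over the groups
`H = Gal(V / V ∩ F)`, `F` in `Φ`: the automorphisms of `V` which fix all the elements of `V ∩ F`. -/
def InIdeal {k Ω : Type} [Field k] [Field Ω] [Algebra k Ω] (V : IntermediateField k Ω)
    (Φ : Set (IntermediateField k Ω)) (n : ℕ) : Prop :=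
  RV.const (V ≃ₐ[k] V) n ∈
    RV.J {H | ∃ F ∈ Φ, ∀ σ, σ ∈ H ↔ ∀ x : V, (x : Ω) ∈ F → σ x = x}

end Pool.Agent.H504.CV
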