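import Mathlib
import Pool.Agent.H504.CV.Chr

/-!
# The conjugates of an irreducible character
-/

set_option autoImplicit false
set_option linter.unusedSectionVars false

namespace Pool.Agent.H504.CV

open Pool.Agent.K4H74 Pool.Agent.K4H74.ST Pool.Agent.K4H74.SK Pool.Agent.R389
  Pool.Agent.H541R3.ART Pool.Agent.W446.AS

variable {G : Type} [Group G] [Finite G]

lemma chr_of_irr {χ : G → ℂ} (h : χ ∈ Irr G) : IsChr χ := by
  obtain ⟨n, ρ, -, rfl⟩ := h
  exact isChr_iff.mpr ⟨Fin n → ℂ, inferInstance, inferInstance, inferInstance, ρ, rfl⟩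

lemma class_of_chr {χ : G → ℂ} (hχ : IsChr χ) (g x : G) : χ (x * g * x⁻¹) = χ g := by
  obtain ⟨n, ρ, hρ⟩ := hχ
  rw [hρ, hρ, map_mul, map_mul, Matrix.trace_mul_cycle, ← map_mul, inv_mul_cancel, map_one,
    one_mul]

/-- a character of norm one is irreducible -/
theorem irr_of_norm [Fintype G] {f : G → ℂ} (hf : IsChr f)
    (h : ∑ g : G, f g * f g⁻¹ = (Nat.card G : ℂ)) : f ∈ Irr G := by
  classical
  have hG : (Nat.card G : ℂ) ≠ 0 := by exact_mod_cast Nat.card_pos.ne'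
  have hv : Virt f := (isChr_iff.mp hf).virt
  choose! a ha using fun (χ : G → ℂ) (hχ : χ ∈ Irr G) => hv.pr_int hχ
  have hexp : ∀ g, f g = ∑ χ ∈ irrF G, (a χ : ℂ) * χ g := by
    intro g
    rw [class_expand (class_of_chr hf) g]
    exact Finset.sum_congr rfl fun χ hχ => by rw [ha χ (mem_irrF.mp hχ)]
  have hpr : ∀ χ ∈ Irr G, ∑ g : G, χ g * f g⁻¹ = (Nat.card G : ℂ) * a χ := by
    intro χ hχ
    have h1 : pr f χ = (Nat.card G : ℂ)⁻¹ * ∑ g : G, f g * χ g⁻¹ := by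
      rw [pr, finsum_eq_sum_of_fintype]
    have h2 : ∑ g : G, χ g * f g⁻¹ = ∑ g : G, f g * χ g⁻¹ := by
      rw [← Equiv.sum_comp (Equiv.inv G)]
      refine Finset.sum_congr rfl fun g _ => ?_
      rw [Equiv.inv_apply, inv_inv, mul_comm]
    rw [h2, ← ha χ hχ, h1, mul_inv_cancel_left₀ hG]
  have hnorm : ∑ χ ∈ irrF G, a χ * a χ = 1 := by
    have h1 : ∑ g : G, f g * f g⁻¹ = (Nat.card G : ℂ) * ∑ χ ∈ irrF G, (a χ : ℂ) * a χ := by
      calc ∑ g : G, f g * f g⁻¹ = ∑ g : G, ∑ χ ∈ irrF G, (a χ : ℂ) * (χ g * f g⁻¹) := by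
            refine Finset.sum_congr rfl fun g _ => ?_
            rw [hexp g, Finset.sum_mul]
            refine Finset.sum_congr rfl fun χ _ => ?_
            rw [mul_assoc]
        _ = ∑ χ ∈ irrF G, (a χ : ℂ) * ∑ g : G, χ g * f g⁻¹ := by
            rw [Finset.sum_comm]
            exact Finset.sum_congr rfl fun χ _ => by rw [Finset.mul_sum]
        _ = _ := by
            rw [Finset.mul_sum]
            refine Finset.sum_congr rfl fun χ hχ => ?_
            rw [hpr χ (mem_irrF.mp hχ)]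
            ring
    rw [h] at h1
    have h2 : (1 : ℂ) = ∑ χ ∈ irrF G, (a χ : ℂ) * a χ := by
      have h3 := mul_left_cancel₀ hG ((mul_one (Nat.card G : ℂ)).trans h1)
      exact h3
    exact_mod_cast h2.symm
  -- there is exactly one constituent
  obtain ⟨χ₀, hχ₀, h0⟩ : ∃ χ₀ ∈ irrF G, a χ₀ ≠ 0 := by
    by_contra hcon
    push Not at hcon
    rw [Finset.sum_eq_zero fun χ hχ => by rw [hcon χ hχ, mul_zero]] at hnorm
    exact zero_ne_one hnorm
  have h1 : a χ₀ * a χ₀ + ∑ χ ∈ (irrF G).erase χ₀, a χ * a χ = 1 := by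
    rw [Finset.add_sum_erase (irrF G) (fun χ => a χ * a χ) hχ₀]
    exact hnorm
  have h2 : 1 ≤ a χ₀ * a χ₀ := by
    have h3 : 0 < a χ₀ * a χ₀ := mul_self_pos.mpr h0
    omega
  have h3 : 0 ≤ ∑ χ ∈ (irrF G).erase χ₀, a χ * a χ :=
    Finset.sum_nonneg fun χ _ => mul_self_nonneg _
  have h4 : ∑ χ ∈ (irrF G).erase χ₀, a χ * a χ = 0 := by omega
  have h5 : ∀ χ ∈ (irrF G).erase χ₀, a χ = 0 := by
    intro χ hχ
    exact mul_self_eq_zero.mp
      ((Finset.sum_eq_zero_iff_of_nonneg fun χ _ => mul_self_nonneg _).mp h4 χ hχ)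
  have h6 : ∀ g, f g = (a χ₀ : ℂ) * χ₀ g := by
    intro g
    rw [hexp g, ← Finset.add_sum_erase (irrF G) (fun χ => (a χ : ℂ) * χ g) hχ₀,
      Finset.sum_eq_zero, add_zero]
    intro χ hχ
    rw [h5 χ hχ, Int.cast_zero, zero_mul]
  have h7 : a χ₀ * a χ₀ = 1 := by omega
  have h8 : a χ₀ = 1 := by
    rcases mul_self_eq_one_iff.mp h7 with h9 | h9
    · exact h9
    · exfalso
      obtain ⟨d, hd, hd1⟩ := irr_deg_pos (mem_irrF.mp hχ₀)
      obtain ⟨n, ρ, hρ⟩ := hf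
      have h10 := h6 1
      rw [hρ, map_one, Matrix.trace_one, Fintype.card_fin, hd1, h9] at h10
      have h11 : ((n : ℤ) : ℂ) = ((-1 * (d : ℤ) : ℤ) : ℂ) := by
        push_cast
        push_cast at h10
        exact h10
      have h12 : (n : ℤ) = -1 * (d : ℤ) := by exact_mod_cast h11
      omega
  have h9 : f = χ₀ := by
    funext g
    rw [h6, h8, Int.cast_one, one_mul]
  rw [h9]
  exact mem_irrF.mp hχ₀

end Pool.Agent.H504.CV
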