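import Mathlib
import Pool.Agent.H504.CV.Cheb
import Pool.Agent.H504.CV.Irr

/-!
# Irreducible characters with cyclic fields of values cannot be reduced
-/

set_option autoImplicit false
set_option linter.unusedSectionVars false

namespace Pool.Agent.H504.CV

open NumberField Pool.Agent.K4H74 Pool.Agent.K4H74.SK Pool.Agent.H600.SF Pool.Agent.H541R3.ART

section gen

variable {k Ω : Type} [Field k] [Field Ω] [Algebra k Ω] {F C : IntermediateField k Ω}

/-- restriction of automorphisms -/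
lemma exists_res (hFC : F ≤ C) (hC : Abl C) : ∃ ρ : (C ≃ₐ[k] C) →* (F ≃ₐ[k] F),
    ∀ (c : C ≃ₐ[k] C) (x : F), ((ρ c x : F) : Ω) = (c ⟨x, hFC x.2⟩ : C) := by
  obtain ⟨h4, h5⟩ := Abl.mono hFC hC
  have := hC.1
  have := hC.2
  let : Algebra F C := (IntermediateField.inclusion hFC).toRingHom.toAlgebra
  have : IsScalarTower k F C := IsScalarTower.of_algebraMap_eq' rfl
  refine ⟨AlgEquiv.restrictNormalHom F, fun c x => ?_⟩
  have h1 := AlgEquiv.restrictNormal_commutes c F x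
  have h2 := congrArg (fun y : C => (y : Ω)) h1
  exact h2

/-- an automorphism which fixes an element of a field not containing `F`, but is not trivial
on `F` -/
lemma exists_move (hFC : F ≤ C) (hC : Abl C) {ρ : (C ≃ₐ[k] C) →* (F ≃ₐ[k] F)}
    (hρ : ∀ (c : C ≃ₐ[k] C) (x : F), ((ρ c x : F) : Ω) = (c ⟨x, hFC x.2⟩ : C))
    {F' : IntermediateField k Ω} (hF' : ¬ F ≤ F') {z : Ω} (hz : z ∈ C) (hz' : z ∈ F') :
    ∃ c : C ≃ₐ[k] C, c ⟨z, hz⟩ = ⟨z, hz⟩ ∧ ρ c ≠ 1 := by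
  by_contra hcon
  push Not at hcon
  apply hF'
  intro x hx
  have h1 : x ∈ F' ⊓ C := by
    refine mem_of_fixed_gen hC inf_le_right (hFC hx) fun σ hσ => ?_
    have h2 : ρ σ = 1 := hcon σ (hσ ⟨z, hz⟩ ⟨hz', hz⟩)
    have h3 := hρ σ ⟨x, hx⟩
    rw [h2] at h3
    exact Subtype.ext h3.symm
  exact h1.1

end gen

lemma exists_faithful (A : Type) [Group A] [Finite A] [IsCyclic A] :
    ∃ ψ : A →* ℂˣ, Function.Injective ψ := by
  have : NeZero (Nat.card A) := ⟨Nat.card_pos.ne'⟩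
  have h1 : Nat.card A = Nat.card (rootsOfUnity (Nat.card A) ℂ) := by
    have h0 := Complex.card_rootsOfUnity (Nat.card A)
    exact h0.symm
  let e : A ≃* rootsOfUnity (Nat.card A) ℂ := mulEquivOfCyclicCardEq h1
  exact ⟨(rootsOfUnity (Nat.card A) ℂ).subtype.comp e.toMonoidHom,
    Subtype.val_injective.comp e.injective⟩

lemma exists_faithful_gal {k Ω : Type} [Field k] [Field Ω] [Algebra k Ω]
    {F : IntermediateField k Ω} (hF : Cyc F) :
    ∃ ψ : (F ≃ₐ[k] F) →* ℂˣ, Function.Injective ψ := by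
  have := hF.1
  have := hF.2.2
  exact exists_faithful _

/-- a conjugate of an irreducible character -/
lemma irr_sigma {G : Type} [Group G] [Finite G] {χ : G → ℂ} (hχ : χ ∈ Irr G) (τ : ℂ ≃+* ℂ) :
    (fun g => τ (χ g)) ∈ Irr G := by
  have : Fintype G := Fintype.ofFinite G
  refine irr_of_norm ?_ ?_
  · exact isChr_iff.mpr (SC.isChar_sigma (isChr_iff.mp (chr_of_irr hχ)) τ.toRingHom)
  · have h1 := congrArg τ (pair_self hχ)
    rw [map_sum, map_natCast] at h1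
    rw [← h1]
    exact Finset.sum_congr rfl fun g _ => (map_mul τ _ _).symm

section conv

variable {F C : IntermediateField ℚ ℂ} [Fintype (C ≃ₐ[ℚ] C)]

/-- the projection to an eigenspace -/
noncomputable def proj (θ : (C ≃ₐ[ℚ] C) →* ℂˣ) : C →+ ℂ where
  toFun z := ∑ c : C ≃ₐ[ℚ] C, ((θ c : ℂˣ) : ℂ) * ((c z : C) : ℂ)
  map_zero' := Finset.sum_eq_zero fun c _ => by
    rw [map_zero]
    simp
  map_add' a b := by
    rw [← Finset.sum_add_distrib]
    refine Finset.sum_congr rfl fun c _ => ?_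
    rw [map_add]
    change _ * (((c a : C) : ℂ) + ((c b : C) : ℂ)) = _
    rw [mul_add]

lemma proj_zero (θ : (C ≃ₐ[ℚ] C) →* ℂˣ) {z : C} {c : C ≃ₐ[ℚ] C} (hc : c z = z) (hθ : θ c ≠ 1) :
    proj θ z = 0 := by
  have h1 : proj θ z = ((θ c : ℂˣ) : ℂ) * proj θ z := by
    change ∑ b : C ≃ₐ[ℚ] C, ((θ b : ℂˣ) : ℂ) * ((b z : C) : ℂ)
      = ((θ c : ℂˣ) : ℂ) * ∑ b : C ≃ₐ[ℚ] C, ((θ b : ℂˣ) : ℂ) * ((b z : C) : ℂ)
    rw [Finset.mul_sum]
    conv_lhs => rw [← Equiv.sum_comp (Equiv.mulRight c)]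
    refine Finset.sum_congr rfl fun b _ => ?_
    have h2 : (b * c) z = b z := by
      rw [AlgEquiv.mul_apply, hc]
    rw [Equiv.coe_mulRight, h2, map_mul, Units.val_mul]
    ring
  have h2 : (1 - ((θ c : ℂˣ) : ℂ)) * proj θ z = 0 := by
    rw [sub_mul, one_mul, ← h1, sub_self]
  rcases mul_eq_zero.mp h2 with h3 | h3
  · exact absurd (Units.ext (sub_eq_zero.mp h3).symm) hθ
  · exact h3

end conv

/-- Let `χ` be an irreducible character over `ℚ` and `F` a cyclic subfield of the field of values. No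
power of the L-function of `χ` is a product of powers of L-functions of characters whose fields of
values do not contain `F`. -/
theorem converse {L : Type} [Field L] [NumberField L] [IsGalois ℚ L]
    {χ : G (⟨ℚ, L⟩ : Ext) → ℂ} (hχ : χ ∈ Irr (G (⟨ℚ, L⟩ : Ext))) {F : IntermediateField ℚ ℂ}
    (hF : F ≤ vals χ) (hcyc : Cyc F)
    {n r : ℕ} {x : Fin r → Pair} {k : Fin r → ℤ} (hn : 0 < n) (hx : ∀ i, IsChr (x i).2)
    (hx' : ∀ i, ¬ F ≤ vals (x i).2) (h : LRel ⟨⟨ℚ, L⟩, χ⟩ n x k) : False := by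
  classical
  have hfinG : ∀ E : Ext, Finite (G E) := finite_G
  have : Fintype (G (⟨ℚ, L⟩ : Ext)) := Fintype.ofFinite _
  have hchr := chr_of_irr hχ
  set D : ℕ := Nat.card (G (⟨ℚ, L⟩ : Ext)) * ∏ i, Nat.card (G (x i).1) with hD
  have hD0 : D ≠ 0 := Nat.mul_ne_zero Nat.card_pos.ne'
    (Finset.prod_ne_zero_iff.mpr fun i _ => Nat.card_pos.ne')
  have hD1 : ∀ g : G (⟨ℚ, L⟩ : Ext), g ^ D = 1 := fun g => by
    rw [hD, pow_mul, pow_card_eq_one', one_pow]
  have hD2 : ∀ i (g : G (x i).1), g ^ D = 1 := fun i g => by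
    obtain ⟨e, he⟩ := Finset.dvd_prod_of_mem (fun i => Nat.card (G (x i).1)) (Finset.mem_univ i)
    rw [hD, he, mul_left_comm, pow_mul, pow_card_eq_one', one_pow]
  have hC : Abl (Cy D) := abl_cy hD0
  have hVC : vals χ ≤ Cy D := vals_le fun g => chr_mem_cy hchr hD0 hD1 g
  have hFC : F ≤ Cy D := hF.trans hVC
  have hiC : ∀ i, vals (x i).2 ≤ Cy D := fun i => vals_le fun g => chr_mem_cy (hx i) hD0 (hD2 i) g
  obtain ⟨ρ, hρ⟩ := exists_res hFC hC
  obtain ⟨ψ, hψ⟩ := exists_faithful_gal hcyc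
  have := hC.1
  have : Fintype (Cy D ≃ₐ[ℚ] Cy D) := Fintype.ofFinite _
  set θ : (Cy D ≃ₐ[ℚ] Cy D) →* ℂˣ := ψ.comp ρ with hθ
  -- the values are annihilated by the projection
  have hzero : ∀ g, proj θ ⟨χ g, hVC (mem_vals χ g)⟩ = 0 := by
    intro g
    obtain ⟨l, hl, hlg⟩ := exists_coef hchr g
    have h1 := coef_rel h hl.ne_zero
    rw [hlg] at h1
    have h2 : ∀ i, coef (x i) l ∈ Cy D := fun i => hiC i (coef_mem (x i) hl)
    have h3 : ∀ i, proj θ ⟨coef (x i) l, h2 i⟩ = 0 := by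
      intro i
      obtain ⟨c, hc1, hc2⟩ := exists_move hFC hC hρ (hx' i) (h2 i) (coef_mem (x i) hl)
      refine proj_zero θ hc1 fun h4 => hc2 (hψ ?_)
      rw [map_one]
      exact h4
    have h4 : n • (⟨χ g, hVC (mem_vals χ g)⟩ : Cy D)
        = ∑ i, k i • (⟨coef (x i) l, h2 i⟩ : Cy D) := by
      apply Subtype.ext
      have h5 : (((∑ i, k i • (⟨coef (x i) l, h2 i⟩ : Cy D) : Cy D)) : ℂ)
          = ∑ i, ((k i • (⟨coef (x i) l, h2 i⟩ : Cy D) : Cy D) : ℂ) :=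
        map_sum (algebraMap (Cy D) ℂ) _ _
      rw [h5]
      have h6 : ((n • (⟨χ g, hVC (mem_vals χ g)⟩ : Cy D) : Cy D) : ℂ) = n * χ g := by
        rw [nsmul_eq_mul]
        rfl
      rw [h6, h1]
      refine Finset.sum_congr rfl fun i _ => ?_
      rw [zsmul_eq_mul]
      rfl
    have h5 := congrArg (proj θ) h4
    rw [map_nsmul, map_sum, Finset.sum_eq_zero fun i _ => by rw [map_zsmul, h3, smul_zero]] at h5
    rw [nsmul_eq_mul] at h5
    exact (mul_eq_zero.mp h5).resolve_left (by exact_mod_cast hn.ne')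
  -- the scalar product with `χ`
  have hext : ∀ c : Cy D ≃ₐ[ℚ] Cy D, ∃ τ : ℂ ≃+* ℂ, ∀ z : Cy D, τ z = c z := fun c =>
    exists_ext hC.1 (c : Cy D →+* Cy D)
  choose τ hτ using hext
  have h1 : ∑ g, proj θ ⟨χ g, hVC (mem_vals χ g)⟩ * χ g⁻¹ = 0 :=
    Finset.sum_eq_zero fun g _ => by rw [hzero, zero_mul]
  have h2 : ∑ g, proj θ ⟨χ g, hVC (mem_vals χ g)⟩ * χ g⁻¹
      = ∑ c : Cy D ≃ₐ[ℚ] Cy D, ((θ c : ℂˣ) : ℂ) * ∑ g, (fun g => τ c (χ g)) g * χ g⁻¹ := by
    simp_rw [Finset.mul_sum]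
    rw [Finset.sum_comm]
    refine Finset.sum_congr rfl fun g _ => ?_
    change (∑ c : Cy D ≃ₐ[ℚ] Cy D, ((θ c : ℂˣ) : ℂ) * ((c ⟨χ g, hVC (mem_vals χ g)⟩ : Cy D) : ℂ))
      * χ g⁻¹ = _
    rw [Finset.sum_mul]
    refine Finset.sum_congr rfl fun c _ => ?_
    rw [← hτ c ⟨χ g, hVC (mem_vals χ g)⟩, mul_assoc]
  have h3 : ∀ c : Cy D ≃ₐ[ℚ] Cy D, ((θ c : ℂˣ) : ℂ) * ∑ g, (fun g => τ c (χ g)) g * χ g⁻¹
      = if (fun g => τ c (χ g)) = χ then (Nat.card (G (⟨ℚ, L⟩ : Ext)) : ℂ) else 0 := by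
    intro c
    by_cases hc : (fun g => τ c (χ g)) = χ
    · rw [if_pos hc, hc, pair_self hχ]
      have h4 : ρ c = 1 := by
        have h5 : ∀ z ∈ vals χ, τ c z = z := by
          intro z hz
          induction hz using IntermediateField.adjoin_induction with
          | mem z hz =>
            obtain ⟨g, rfl⟩ := hz
            exact congrFun hc g
          | algebraMap q => rw [eq_ratCast, map_ratCast]
          | add x y _ _ hx hy => rw [map_add, hx, hy]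
          | inv x _ hx => rw [map_inv₀, hx]
          | mul x y _ _ hx hy => rw [map_mul, hx, hy]
        apply AlgEquiv.ext
        intro z
        apply Subtype.ext
        exact (hρ c z).trans ((hτ c ⟨z, hFC z.2⟩).symm.trans (h5 z (hF z.2)))
      have h5 : θ c = 1 := (congrArg ψ h4).trans (map_one ψ)
      rw [h5, Units.val_one, one_mul]
    · rw [if_neg hc, pair_ne (irr_sigma hχ (τ c)) hχ hc, mul_zero]
  rw [h2, Finset.sum_congr rfl fun c _ => h3 c, ← Finset.sum_filter, Finset.sum_const,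
    nsmul_eq_mul] at h1
  have h4 : (1 : Cy D ≃ₐ[ℚ] Cy D) ∈ Finset.univ.filter
      (fun c : Cy D ≃ₐ[ℚ] Cy D => (fun g => τ c (χ g)) = χ) := by
    rw [Finset.mem_filter]
    refine ⟨Finset.mem_univ _, ?_⟩
    funext g
    exact hτ 1 ⟨χ g, hVC (mem_vals χ g)⟩
  have h5 : (Nat.card (G (⟨ℚ, L⟩ : Ext)) : ℂ) ≠ 0 := by exact_mod_cast Nat.card_pos.ne'
  rcases mul_eq_zero.mp h1 with h6 | h6
  · rw [Nat.cast_eq_zero, Finset.card_eq_zero] at h6
    rw [h6] at h4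
    exact absurd h4 (Finset.notMem_empty _)
  · exact h5 h6

end Pool.Agent.H504.CV
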