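import Mathlib
import Pool.Agent.H504.CV.Opt
import Pool.Agent.H504.CV.Fix
import Pool.Agent.H504.RV.Lam

/-!
# The exponent in the reduction to cyclic fields of values is exact
-/

set_option autoImplicit false
set_option linter.unusedSectionVars false

namespace Pool.Agent.H504.CV

open NumberField Pool.Agent.K4H74 Pool.Agent.K4H74.SK Pool.Agent.H600.SF Pool.Agent.H541R3.ART
  Pool.Agent.H504.RV Pool.Agent.K4H74.ST Pool.Agent.R389 Pool.Agent.W446.AS

/-- functions that are constant on the cosets of a member of `𝓗` lie in the ideal -/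
lemma mem_J_of_invariant {B : Type} [Group B] [Finite B] {𝓗 : Set (Subgroup B)} {H : Subgroup B}
    (hH : H ∈ 𝓗) {f : B → ℤ} (hf : ∀ x, ∀ h ∈ H, f (x * h) = f x) : f ∈ J 𝓗 := by
  classical
  have := Fintype.ofFinite B
  have h1 : f = ∑ q : B ⧸ H, f q.out • coset q.out H := by
    funext x
    rw [Finset.sum_apply, Finset.sum_eq_single (x : B ⧸ H)]
    · have h2 : ((x : B ⧸ H).out)⁻¹ * x ∈ H := by
        rw [← QuotientGroup.eq, QuotientGroup.out_eq']
      rw [Pi.smul_apply, coset, if_pos h2, smul_eq_mul, mul_one]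
      have h3 := hf (x : B ⧸ H).out _ h2
      rw [mul_inv_cancel_left] at h3
      exact h3
    · intro q _ hq
      rw [Pi.smul_apply, coset, if_neg, smul_zero]
      intro h2
      apply hq
      rw [← QuotientGroup.eq, QuotientGroup.out_eq'] at h2
      exact h2
    · intro h
      exact absurd (Finset.mem_univ _) h
  rw [h1]
  refine sum_mem fun q _ => AddSubgroup.zsmul_mem _ ?_ _
  exact AddSubgroup.subset_closure ⟨_, _, hH, rfl⟩

section gen

variable {k Ω : Type} [Field k] [Field Ω] [Algebra k Ω] {F C : IntermediateField k Ω}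

/-- the Galois group -/
abbrev Gl (F : IntermediateField k Ω) : Type := F ≃ₐ[k] F

/-- the Galois group of an abelian extension as a commutative group -/
@[instance_reducible] noncomputable def commGl (hF : Abl F) : CommGroup (Gl F) :=
  { (inferInstance : Group (Gl F)) with
    mul_comm := fun a b => by
      have := hF.2
      exact (IsMulCommutative.is_comm (M := F ≃ₐ[k] F)).comm a b }

lemma finite_Gl (hF : Abl F) : Finite (Gl F) := by
  have := hF.1
  infer_instance

/-- restriction of automorphisms, surjective -/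
lemma exists_res_surj (hFC : F ≤ C) (hC : Abl C) : ∃ ρ : Gl C →* Gl F,
    (∀ (c : Gl C) (x : F), ((ρ c x : F) : Ω) = (c ⟨x, hFC x.2⟩ : C)) ∧
    Function.Surjective ρ := by
  obtain ⟨h4, h5⟩ := Abl.mono hFC hC
  have := hC.1
  have := hC.2
  let : Algebra F C := (IntermediateField.inclusion hFC).toRingHom.toAlgebra
  have : IsScalarTower k F C := IsScalarTower.of_algebraMap_eq' rfl
  refine ⟨AlgEquiv.restrictNormalHom F, fun c x => ?_, AlgEquiv.restrictNormalHom_surjective C⟩
  have h1 := AlgEquiv.restrictNormal_commutes c F x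
  have h2 := congrArg (fun y : C => (y : Ω)) h1
  exact h2

end gen

/-- a quotient of a group with a cyclic quotient -/
lemma cyclic_map {A B D : Type} [CommGroup A] [CommGroup B] [Group D] (ρ : A →* B)
    (hρ : Function.Surjective ρ) (π : A →* D) (hD : IsCyclic D) :
    IsCyclic (B ⧸ π.ker.map ρ) := by
  have h1 : IsCyclic (A ⧸ π.ker) :=
    isCyclic_of_injective (QuotientGroup.kerLift π) (QuotientGroup.kerLift_injective π)
  let φ : A ⧸ π.ker →* B ⧸ π.ker.map ρ := QuotientGroup.map π.ker (π.ker.map ρ) ρ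
    (Subgroup.le_comap_map _ _)
  refine isCyclic_of_surjective φ fun q => ?_
  obtain ⟨b, rfl⟩ := QuotientGroup.mk_surjective q
  obtain ⟨a, rfl⟩ := hρ b
  exact ⟨QuotientGroup.mk a, rfl⟩

/-- the group-theoretic part -/
theorem abs_dvd {A B : Type} [CommGroup A] [CommGroup B] [Finite B] {ι : Type} [Fintype ι]
    {D : ι → Type} [∀ i, Group (D i)] {ρ : A →* B} (hρ : Function.Surjective ρ)
    (π : ∀ i, A →* D i) (hD : ∀ i, IsCyclic (D i)) {m : ι → B → ℤ}
    (hm : ∀ i c, π i c = 1 → ∀ σ, m i (σ * ρ c) = m i σ) {k : ι → ℤ} {n : ℕ}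
    (h1 : ∑ i, k i * m i 1 = n) (h2 : ∀ σ, σ ≠ 1 → ∑ i, k i * m i σ = 0) : cexp B ∣ n := by
  classical
  have hrel : const B n = ∑ i, k i • m i := by
    funext σ
    rw [Finset.sum_apply, const]
    by_cases hσ : σ = 1
    · rw [if_pos hσ, hσ]
      exact h1.symm
    · rw [if_neg hσ]
      exact (h2 σ hσ).symm
  have hmem : const B n ∈ J {H : Subgroup B | IsCyclic (B ⧸ H)} := by
    rw [hrel]
    refine sum_mem fun i _ => AddSubgroup.zsmul_mem _ ?_ _
    refine mem_J_of_invariant (H := (π i).ker.map ρ) (cyclic_map ρ hρ (π i) (hD i)) ?_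
    rintro σ _ ⟨c, hc, rfl⟩
    exact hm i c hc σ
  have h3 := (const_mem_iff (B := B) (n : ℤ)).1 hmem
  exact_mod_cast h3

section main

variable {G : Type} [Group G] [Finite G]

/-- If `n χ`, for an irreducible character `χ`, is an integral combination of characters with cyclic
fields of values, then `k(χ)` divides `n`. -/
theorem cexp_dvd_of_rel {χ : G → ℂ} (hχ : χ ∈ Irr G) {n r : ℕ} {θ : Fin r → G → ℂ}
    {k : Fin r → ℤ} (hθ : ∀ i, IsChr (θ i) ∧ Cyc (vals (θ i))) (h : n • χ = ∑ i, k i • θ i) :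
    cexpF (vals χ) ∣ n := by
  classical
  have : Fintype G := Fintype.ofFinite G
  have hchr := chr_of_irr hχ
  have hG0 : Nat.card G ≠ 0 := Nat.card_pos.ne'
  have hG : (Nat.card G : ℂ) ≠ 0 := by exact_mod_cast hG0
  have hC : Abl (Cy (Nat.card G)) := abl_cy hG0
  have hpow : ∀ g : G, g ^ Nat.card G = 1 := fun g => pow_card_eq_one'
  have hFC : vals χ ≤ Cy (Nat.card G) := vals_le fun g => chr_mem_cy hchr hG0 hpow g
  have hiC : ∀ i, vals (θ i) ≤ Cy (Nat.card G) :=
    fun i => vals_le fun g => chr_mem_cy (hθ i).1 hG0 hpow g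
  obtain ⟨ρ, hρ, hsurj⟩ := exists_res_surj hFC hC
  have hF : Abl (vals χ) := Abl.mono hFC hC
  have := finite_Gl hF
  have := finite_Gl hC
  have hext : ∀ σ : Gl (vals χ), ∃ τ : ℂ ≃+* ℂ, ∀ z : vals χ, τ z = σ z := fun σ =>
    exists_ext hF.1 (σ : vals χ →+* vals χ)
  choose τ hτ using hext
  -- the multiplicities
  have hm : ∀ i (σ : Gl (vals χ)), ∃ a : ℤ,
      ∑ g : G, θ i g * τ σ (χ g⁻¹) = Nat.card G * a := by
    intro i σ
    have hv : Virt (θ i) := (isChr_iff.mp (hθ i).1).virt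
    obtain ⟨a, ha⟩ := hv.pr_int (irr_sigma hχ (τ σ))
    refine ⟨a, ?_⟩
    rw [pr, finsum_eq_sum_of_fintype] at ha
    rw [← ha, mul_inv_cancel_left₀ hG]
  choose m hm using hm
  choose π hπ _ using fun i => exists_res_surj (hiC i) hC
  have hcm : ∀ a b : Gl (vals χ), a * b = b * a := fun a b => (commGl hF).mul_comm a b
  have hinv : ∀ i c, π i c = 1 → ∀ σ, m i (σ * ρ c) = m i σ := by
    intro i c hc σ
    obtain ⟨t, ht⟩ := exists_ext hC.1 (c : Cy (Nat.card G) →+* Cy (Nat.card G))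
    -- `t` fixes the values of `θ i`
    have h1 : ∀ g, t (θ i g) = θ i g := by
      intro g
      have h3 := hπ i c ⟨θ i g, mem_vals (θ i) g⟩
      rw [hc] at h3
      exact (ht ⟨θ i g, hiC i (mem_vals (θ i) g)⟩).trans h3.symm
    have h2 : ∀ g, τ (σ * ρ c) (χ g) = t (τ σ (χ g)) := by
      intro g
      have h3 : τ (σ * ρ c) (χ g) = (σ * ρ c) ⟨χ g, mem_vals χ g⟩ :=
        hτ (σ * ρ c) ⟨χ g, mem_vals χ g⟩
      have h4 : τ σ (χ g) = σ ⟨χ g, mem_vals χ g⟩ := hτ σ ⟨χ g, mem_vals χ g⟩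
      rw [h3, h4, hcm σ (ρ c)]
      have h5 := hρ c (σ ⟨χ g, mem_vals χ g⟩)
      exact h5.trans (ht ⟨_, hFC (σ ⟨χ g, mem_vals χ g⟩).2⟩).symm
    have h3 : (Nat.card G : ℂ) * m i (σ * ρ c) = Nat.card G * m i σ := by
      have h4 : ∀ g, θ i g * τ (σ * ρ c) (χ g⁻¹) = t (θ i g * τ σ (χ g⁻¹)) := fun g => by
        rw [map_mul, h1, h2]
      rw [← hm, Finset.sum_congr rfl fun g _ => h4 g, ← map_sum, hm, map_mul, map_natCast,
        map_intCast]
    exact_mod_cast mul_left_cancel₀ hG h3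
  -- the relation
  have hrel : ∀ σ, (Nat.card G : ℂ) * ((∑ i, k i * m i σ : ℤ) : ℂ) =
      n * ∑ g : G, χ g * τ σ (χ g⁻¹) := by
    intro σ
    push_cast
    rw [Finset.mul_sum, Finset.mul_sum]
    have h2 : ∀ g, (n : ℂ) * χ g = ∑ i, (k i : ℂ) * θ i g := by
      intro g
      have h3 := congrFun h g
      rw [Pi.smul_apply, Finset.sum_apply, nsmul_eq_mul] at h3
      rw [h3]
      exact Finset.sum_congr rfl fun i _ => by rw [Pi.smul_apply, zsmul_eq_mul]
    have h4 : ∑ g : G, (n : ℂ) * (χ g * τ σ (χ g⁻¹)) =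
        ∑ g : G, ∑ i, (k i : ℂ) * (θ i g * τ σ (χ g⁻¹)) := by
      refine Finset.sum_congr rfl fun g _ => ?_
      rw [← mul_assoc, h2, Finset.sum_mul]
      exact Finset.sum_congr rfl fun i _ => by ring
    rw [h4, Finset.sum_comm]
    refine Finset.sum_congr rfl fun i _ => ?_
    rw [← Finset.mul_sum, hm]
    ring
  refine @abs_dvd (Gl (Cy (Nat.card G))) (Gl (vals χ)) (commGl hC) (commGl hF)
    (finite_Gl hF) (Fin r) _ (fun i => Gl (vals (θ i))) (fun i => AlgEquiv.aut) ρ hsurj π (fun i => (hθ i).2.2.2) m hinv k n ?_ ?_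
  · have h3 : ∀ g, τ 1 (χ g) = χ g := fun g => hτ 1 ⟨χ g, mem_vals χ g⟩
    have h1 := hrel 1
    simp only [h3] at h1
    rw [pair_self hχ] at h1
    have h4 : ((∑ i, k i * m i 1 : ℤ) : ℂ) = n := by
      apply mul_left_cancel₀ hG
      rw [h1, mul_comm]
    exact_mod_cast h4
  · intro σ hσ
    have h2 : χ ≠ (fun g => τ σ (χ g)) := by
      intro h3
      apply hσ
      have h5 : ∀ z ∈ vals χ, τ σ z = z := by
        intro z hz
        induction hz using IntermediateField.adjoin_induction with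
        | mem z hz =>
          obtain ⟨g, rfl⟩ := hz
          exact (congrFun h3 g).symm
        | algebraMap q => rw [eq_ratCast, map_ratCast]
        | add x y _ _ hx hy => rw [map_add, hx, hy]
        | inv x _ hx => rw [map_inv₀, hx]
        | mul x y _ _ hx hy => rw [map_mul, hx, hy]
      apply AlgEquiv.ext
      intro z
      apply Subtype.ext
      exact (hτ σ z).symm.trans (h5 z z.2)
    have h3 : ∑ g : G, χ g * τ σ (χ g⁻¹) = 0 := pair_ne hχ (irr_sigma hχ (τ σ)) h2
    have h1 := hrel σ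
    rw [h3, mul_zero] at h1
    have h4 : ((∑ i, k i * m i σ : ℤ) : ℂ) = 0 := (mul_eq_zero.1 h1).resolve_left hG
    exact_mod_cast h4

end main

end Pool.Agent.H504.CV
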