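import Mathlib
import Pool.Agent.H504.CV.Sha
import Pool.Agent.H504.CV.BaseQ

/-!
# The exponent is exact for the relations between the L-functions
-/

set_option autoImplicit false
set_option linter.unusedSectionVars false

namespace Pool.Agent.H504.CV

open NumberField IsDedekindDomain Pool.Agent.K4H74 Pool.Agent.K4H74.ST Pool.Agent.K4H74.SK
  Pool.Agent.K4H34.AL Pool.Agent.H600.SF Pool.Agent.H541R3.ART Pool.Agent.Q92.AR

/-- Over `ℚ` the values at `g` of all the characters are the coefficients at one prime. -/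
theorem exists_coef_all {L : Type} [Field L] [NumberField L] [IsGalois ℚ L]
    (g : G (⟨ℚ, L⟩ : Ext)) :
    ∃ l : ℕ, l.Prime ∧ ∀ χ : G (⟨ℚ, L⟩ : Ext) → ℂ, IsChr χ → coef ⟨⟨ℚ, L⟩, χ⟩ l = χ g := by
  obtain ⟨v, -, hu, hF⟩ := Pool.Agent.Q14.AR.cheb ℚ L g ∅ Set.finite_empty
  obtain ⟨p, hp, hpv⟩ := exists_prime_in v
  refine ⟨p, hp, fun χ hχ => ?_⟩
  have hconj : ∀ g x : L ≃ₐ[ℚ] L, χ (x * g * x⁻¹) = χ g := chr_conj hχ
  have h1 := frobMean_unram hu hF hconj
  have hN : Ideal.absNorm v.asIdeal = p := absNorm_rat hp v.isPrime hpv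
  let i₀ : nrm (⟨ℚ, L⟩ : Ext) ⁻¹' {p} := ⟨(⟨v.asIdeal, v.isPrime, v.ne_bot⟩, 1), by
    change Ideal.absNorm v.asIdeal ^ ((1 : ℕ+) : ℕ) = p
    rw [PNat.one_coe, pow_one, hN]⟩
  have huniq : ∀ i : nrm (⟨ℚ, L⟩ : Ext) ⁻¹' {p}, i = i₀ := by
    intro i
    obtain ⟨h2, h3⟩ := fib_prime hp i.2
    have h4 : i.1.1.1 = v.asIdeal := by
      have h5 := Ideal.absNorm_mem i.1.1.1
      rw [h3] at h5
      exact (rat_prime_span hp i.1.1.2.1 h5).trans (rat_prime_span hp v.isPrime hpv).symm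
    apply Subtype.ext
    refine Prod.ext (Subtype.ext h4) (PNat.coe_injective ?_)
    rw [h2]
    rfl
  rw [coef, tsum_eq_single i₀ fun i hi => absurd (huniq i) hi]
  change frobMean χ v.asIdeal ((1 : ℕ+) : ℕ) / (((1 : ℕ+) : ℕ) : ℂ) = χ g
  rw [PNat.one_coe, Nat.cast_one, div_one, frobMean_eq]
  exact h1

/-- a common Galois extension of `ℚ` -/
theorem exists_common {ι : Type} [Finite ι] (L : ι → Type) [∀ i, Field (L i)]
    [∀ i, NumberField (L i)] :
    ∃ (N : Type) (_ : Field N) (_ : NumberField N) (_ : IsGalois ℚ N),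
      ∀ i, Nonempty (L i →+* N) := by
  classical
  let f : ∀ i, L i →ₐ[ℚ] ℂ := fun i => (Classical.arbitrary (L i →+* ℂ)).toRatAlgHom
  let M : IntermediateField ℚ ℂ := ⨆ i, (f i).fieldRange
  have h1 : ∀ i, FiniteDimensional ℚ ((f i).fieldRange) := fun i =>
    Module.Finite.of_surjective ((f i).rangeRestrict.toLinearMap) (f i).rangeRestrict_surjective
  have h2 : FiniteDimensional ℚ M := IntermediateField.finiteDimensional_iSup_of_finite
  have h3 : NumberField M := ⟨⟩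
  obtain ⟨N, i1, i2, i3, i4⟩ := Pool.Agent.K4H34.ST.exists_gal M
  refine ⟨N, i1, i2, i4, fun i => ⟨(algebraMap M N).comp ?_⟩⟩
  exact (f i).toRingHom.codRestrict M fun x =>
    (le_iSup (fun i => (f i).fieldRange) i : (f i).fieldRange ≤ M) ⟨x, rfl⟩

/-- every character comes from a character over `ℚ`, of the Galois group of any large enough
field -/
theorem base_Q' {E : Ext} {χ : G E → ℂ} (hχ : IsChr χ) (N : Type) [Field N] [NumberField N]
    [IsGalois ℚ N] (f : E.L →+* N) :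
    ∃ X : G (⟨ℚ, N⟩ : Ext) → ℂ, IsChr X ∧ vals X ≤ vals χ ∧
        ∀ (M : Type) [CommGroup M] (A : ArtinInvariant M),
          pval A ⟨⟨ℚ, N⟩, X⟩ = pval A ⟨E, χ⟩ := by
  let _ : Algebra E.L N := f.toAlgebra
  let _ : Algebra E.K N := ((algebraMap E.L N).comp (algebraMap E.K E.L)).toAlgebra
  have htow : IsScalarTower E.K E.L N := IsScalarTower.of_algebraMap_eq fun x => rfl
  have htow2 : IsScalarTower ℚ E.K N := inferInstance
  have hgal : IsGalois E.K N := IsGalois.tower_top_of_isGalois ℚ E.K N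
  have h7 : IsChar (G := E.L ≃ₐ[E.K] E.L) χ := isChr_iff.mp hχ
  have h8 : IsChar (fun g : N ≃ₐ[E.K] N =>
      (show (E.L ≃ₐ[E.K] E.L) → ℂ from χ) (AlgEquiv.restrictNormalHom E.L g)) :=
    Pool.Agent.K4H77.SL.IsChar.comp h7 _
  refine ⟨indChar ℚ E.K N (fun g : N ≃ₐ[E.K] N =>
      (show (E.L ≃ₐ[E.K] E.L) → ℂ from χ) (AlgEquiv.restrictNormalHom E.L g)), ?_, ?_,
    fun M _ A => ?_⟩
  · exact isChr_iff.mpr (Pool.Agent.K4H74.SC.isChar_indChar h8)
  · exact vals_le fun g => indChar_mem (fun u => mem_vals χ _) g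
  · change A.val ℚ N _ = A.val E.K E.L χ
    rw [← A.val_infl E.K E.L N χ h7, ← A.val_ind ℚ E.K N _ h8]

/-- inflation of an irreducible character -/
lemma irr_comp {A B : Type} [Group A] [Group B] [Finite A] [Finite B] {π : A →* B}
    (hπ : Function.Surjective π) {χ : B → ℂ} (hχ : χ ∈ Irr B) : (fun a => χ (π a)) ∈ Irr A := by
  classical
  have : Fintype A := Fintype.ofFinite A
  have : Fintype B := Fintype.ofFinite B
  have hchr := chr_of_irr hχ
  refine irr_of_norm ?_ ?_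
  · obtain ⟨n, ρ, hρ⟩ := hchr
    exact ⟨n, ρ.comp π, fun g => hρ (π g)⟩
  · have h1 : ∀ b : B, (Finset.univ.filter fun a => π a = b).card = Nat.card π.ker := by
      intro b
      obtain ⟨a₀, rfl⟩ := hπ b
      rw [Nat.card_eq_fintype_card, Fintype.card_subtype]
      refine Finset.card_bij (fun a _ => a₀⁻¹ * a) (fun a ha => ?_) (fun a _ a' _ h => ?_)
        fun c hc => ?_
      · rw [Finset.mem_filter] at ha ⊢
        refine ⟨Finset.mem_univ _, ?_⟩
        rw [MonoidHom.mem_ker, map_mul, map_inv, ha.2, inv_mul_cancel]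
      · exact mul_left_cancel h
      · rw [Finset.mem_filter, MonoidHom.mem_ker] at hc
        refine ⟨a₀ * c, ?_, by rw [inv_mul_cancel_left]⟩
        rw [Finset.mem_filter]
        exact ⟨Finset.mem_univ _, by rw [map_mul, hc.2, mul_one]⟩
    have h2 : ∑ a : A, χ (π a) * χ (π a⁻¹) = Nat.card π.ker * ∑ b : B, χ b * χ b⁻¹ := by
      rw [← Finset.sum_fiberwise Finset.univ π, Finset.mul_sum]
      refine Finset.sum_congr rfl fun b _ => ?_
      rw [Finset.sum_congr rfl fun a ha => by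
        rw [map_inv, (Finset.mem_filter.mp ha).2], Finset.sum_const, h1, nsmul_eq_mul]
    have h3 : (Nat.card A : ℂ) = Nat.card π.ker * Nat.card B := by
      have h4 := Subgroup.card_mul_index π.ker
      rw [Subgroup.index_ker, MonoidHom.range_eq_top.mpr hπ, Subgroup.card_top] at h4
      exact_mod_cast h4.symm
    rw [h2, pair_self hχ, h3]

/-- an irreducible character over `ℚ` as a character of the Galois group of a larger field -/
theorem infl_Q {L : Type} [Field L] [NumberField L] [IsGalois ℚ L]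
    {χ : G (⟨ℚ, L⟩ : Ext) → ℂ} (hχ : χ ∈ Irr (G (⟨ℚ, L⟩ : Ext))) (N : Type) [Field N]
    [NumberField N] [IsGalois ℚ N] (f : L →+* N) :
    ∃ X ∈ Irr (G (⟨ℚ, N⟩ : Ext)), vals X = vals χ ∧
        ∀ (M : Type) [CommGroup M] (A : ArtinInvariant M),
          pval A ⟨⟨ℚ, N⟩, X⟩ = pval A ⟨⟨ℚ, L⟩, χ⟩ := by
  have := finite_G (⟨ℚ, L⟩ : Ext)
  have := finite_G (⟨ℚ, N⟩ : Ext)
  let _ : Algebra L N := f.toAlgebra
  have h7 : IsChar (G := L ≃ₐ[ℚ] L) χ := isChr_iff.mp (chr_of_irr hχ)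
  have hsurj : Function.Surjective (AlgEquiv.restrictNormalHom L : (N ≃ₐ[ℚ] N) →* (L ≃ₐ[ℚ] L)) :=
    AlgEquiv.restrictNormalHom_surjective N
  refine ⟨fun g : N ≃ₐ[ℚ] N => (show (L ≃ₐ[ℚ] L) → ℂ from χ) (AlgEquiv.restrictNormalHom L g),
    irr_comp hsurj hχ, le_antisymm (vals_le fun g => mem_vals χ _) (vals_le fun g => ?_),
    fun M _ A => ?_⟩
  · obtain ⟨a, ha⟩ := hsurj g
    have h1 := mem_vals (fun g : N ≃ₐ[ℚ] N =>
      (show (L ≃ₐ[ℚ] L) → ℂ from χ) (AlgEquiv.restrictNormalHom L g)) a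
    rw [ha] at h1
    exact h1
  · exact A.val_infl ℚ L N χ h7

/-- Let `χ` be an irreducible character over `ℚ`. If `L(s, χ) ^ n` is a product of integral powers of
L-functions of characters with cyclic fields of values, then `k(χ)` divides `n`. -/
theorem cexp_dvd_of_LRel {L : Type} [Field L] [NumberField L] [IsGalois ℚ L]
    {χ : G (⟨ℚ, L⟩ : Ext) → ℂ} (hχ : χ ∈ Irr (G (⟨ℚ, L⟩ : Ext)))
    {n r : ℕ} {x : Fin r → Pair} {k : Fin r → ℤ}
    (hx : ∀ i, IsChr (x i).2 ∧ Cyc (vals (x i).2)) (h : LRel ⟨⟨ℚ, L⟩, χ⟩ n x k) :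
    cexpF (vals χ) ∣ n := by
  classical
  let E' : Option (Fin r) → Ext := fun o => o.elim ⟨ℚ, L⟩ fun i => (x i).1
  obtain ⟨N, i1, i2, i3, hN⟩ := exists_common (fun o => (E' o).L)
  obtain ⟨f₀⟩ := hN none
  have h0 : ∀ i, Nonempty ((x i).1.L →+* N) := fun i => hN (some i)
  let f : ∀ i, (x i).1.L →+* N := fun i => (h0 i).some
  obtain ⟨X, hX, hXv, hXA⟩ := infl_Q hχ N f₀
  choose Y hY hYv hYA using fun i => base_Q' (hx i).1 N (f i)
  have := finite_G (⟨ℚ, N⟩ : Ext)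
  have hrel : LRel ⟨⟨ℚ, N⟩, X⟩ n (fun i => ⟨⟨ℚ, N⟩, Y i⟩) k := by
    intro s hs l l' hl hl'
    obtain ⟨l₀, hl₀⟩ := logTerm_summable χ hs
    choose l₀' hl₀' using fun i => logTerm_summable (x i).2 hs
    have h1 : l = l₀ := by
      rw [← pval_log (x := ⟨⟨ℚ, N⟩, X⟩) hs hl, ← pval_log (x := ⟨⟨ℚ, L⟩, χ⟩) hs hl₀, hXA]
    have h2 : ∀ i, l' i = l₀' i := by
      intro i
      rw [← pval_log (x := ⟨⟨ℚ, N⟩, Y i⟩) hs (hl' i), ← pval_log (x := x i) hs (hl₀' i), hYA i]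
    rw [h1, Finset.sum_congr rfl fun i _ => by rw [h2 i]]
    exact h s hs l₀ l₀' hl₀ hl₀'
  rw [← hXv]
  refine cexp_dvd_of_rel hX (k := k) (θ := Y)
    (fun i => ⟨hY i, (hx i).2.mono (hYv i)⟩) ?_
  funext g
  obtain ⟨l, hl, hlg⟩ := exists_coef_all g
  have h1 := coef_rel hrel hl.ne_zero
  rw [hlg X (chr_of_irr hX), Finset.sum_congr rfl fun i _ => by rw [hlg (Y i) (hY i)]] at h1
  rw [Pi.smul_apply, Finset.sum_apply, nsmul_eq_mul, h1]
  exact Finset.sum_congr rfl fun i _ => by rw [Pi.smul_apply, zsmul_eq_mul]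

/-- `L(s, χ) ^ n` is a product of integral powers of L-functions of characters with cyclic fields of
values if and only if `k(χ)` divides `n`. -/
theorem exact_LRel {c : Pair → ℂ} (hc : IsLeading c) {L : Type} [Field L] [NumberField L]
    [IsGalois ℚ L] {χ : G (⟨ℚ, L⟩ : Ext) → ℂ} (hχ : χ ∈ Irr (G (⟨ℚ, L⟩ : Ext))) (n : ℕ) :
    (∃ (r : ℕ) (x : Fin r → Pair) (k : Fin r → ℤ),
      (∀ i, IsChr (x i).2 ∧ Cyc (vals (x i).2)) ∧ LRel ⟨⟨ℚ, L⟩, χ⟩ n x k) ↔
      cexpF (vals χ) ∣ n := by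
  constructor
  · rintro ⟨r, x, k, hx, h⟩
    exact cexp_dvd_of_LRel hχ hx h
  · rintro ⟨m, rfl⟩
    have := finite_G (⟨ℚ, L⟩ : Ext)
    obtain ⟨r, θ, k, hθ, -, hL, -⟩ := same_ext hc (chr_of_irr hχ)
    refine ⟨r, fun i => ⟨⟨ℚ, L⟩, θ i⟩, fun i => k i * m, fun i => ⟨(hθ i).1, (hθ i).2.2.1⟩, ?_⟩
    intro s hs l l' hl hl'
    have h1 := hL s hs l l' hl hl'
    push_cast
    rw [mul_right_comm, h1, Finset.sum_mul]
    exact Finset.sum_congr rfl fun i _ => by ring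

end Pool.Agent.H504.CV
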