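import Mathlib
import Pool.Agent.H504.CV.Shb

/-!
# The exact set of exponents for an arbitrary set of fields
-/

set_option autoImplicit false
set_option linter.unusedSectionVars false

namespace Pool.Agent.H504.CV

open NumberField Pool.Agent.K4H74 Pool.Agent.K4H74.ST Pool.Agent.K4H74.SK
  Pool.Agent.K4H34.AL Pool.Agent.H600.SF Pool.Agent.H541R3.ART Pool.Agent.H504.RV
  Pool.Agent.R389 Pool.Agent.W446.AS

/-- the group `Gal(V / V ∩ F)`: the automorphisms of `V` which fix `V ∩ F` -/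
def fixer {k Ω : Type} [Field k] [Field Ω] [Algebra k Ω] (V F : IntermediateField k Ω) :
    Subgroup (V ≃ₐ[k] V) where
  carrier := {σ | ∀ x : V, (x : Ω) ∈ F → σ x = x}
  one_mem' := fun _ _ => rfl
  mul_mem' := fun {a b} ha hb x hx => by
    rw [AlgEquiv.mul_apply, hb x hx, ha x hx]
  inv_mem' := fun {a} ha x hx => by
    have h := ha x hx
    conv_lhs => rw [← h]
    exact a.symm_apply_apply x

/-- the groups `Gal(V / V ∩ F)`, `F` in `Φ` -/
def fixers (V : IntermediateField ℚ ℂ) (Φ : Set (IntermediateField ℚ ℂ)) :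
    Set (Subgroup (Gl V)) := {H | ∃ F ∈ Φ, H = fixer V F}

lemma inIdeal_iff {V : IntermediateField ℚ ℂ} {Φ : Set (IntermediateField ℚ ℂ)} {n : ℕ} :
    InIdeal V Φ n ↔ const (Gl V) n ∈ J (fixers V Φ) := by
  have h1 : {H : Subgroup (Gl V) | ∃ F ∈ Φ, ∀ σ, σ ∈ H ↔ ∀ x : V, (x : ℂ) ∈ F → σ x = x}
      = fixers V Φ := by
    ext H
    constructor
    · rintro ⟨F, hF, h⟩
      exact ⟨F, hF, Subgroup.ext fun σ => h σ⟩
    · rintro ⟨F, hF, rfl⟩
      exact ⟨F, hF, fun σ => Iff.rfl⟩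
  rw [← h1]
  rfl

lemma exists_lift {V C W : IntermediateField ℚ ℂ} (hVC : V ≤ C) (hC : Abl C) (hWC : W ≤ C)
    {ρ : Gl C →* Gl V} (hρ : ∀ (c : Gl C) (x : V), ((ρ c x : V) : ℂ) = (c ⟨x, hVC x.2⟩ : C))
    {h : Gl V} (hh : h ∈ fixer V W) : ∃ c ∈ fixer C W, ρ c = h := by
  obtain ⟨h1, h2⟩ := Abl.mono hVC hC
  have h3 : h ∈ (fixer C W).map ρ := by
    rw [← IntermediateField.fixingSubgroup_fixedField ((fixer C W).map ρ),
      IntermediateField.mem_fixingSubgroup_iff]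
    intro x hx
    refine hh x ?_
    refine mem_of_fixed_gen hC hWC (hVC x.2) fun c hc => ?_
    rw [IntermediateField.mem_fixedField_iff] at hx
    have h4 := hx (ρ c) ⟨c, hc, rfl⟩
    apply Subtype.ext
    rw [← hρ c x, h4]
  exact h3

section main

variable {G : Type} [Group G] [Finite G]

/-- the relation between the characters gives an element of the ideal -/
theorem const_mem_of_rel {χ : G → ℂ} (hχ : χ ∈ Irr G) {Φ : Set (IntermediateField ℚ ℂ)}
    {n r : ℕ} {θ : Fin r → G → ℂ} {k : Fin r → ℤ}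
    (hθ : ∀ i, IsChr (θ i) ∧ ∃ F ∈ Φ, vals (θ i) ≤ F) (h : n • χ = ∑ i, k i • θ i) :
    const (Gl (vals χ)) n ∈ J (fixers (vals χ) Φ) := by
  classical
  have : Fintype G := Fintype.ofFinite G
  have hchr := chr_of_irr hχ
  have hG0 : Nat.card G ≠ 0 := Nat.card_pos.ne'
  have hG : (Nat.card G : ℂ) ≠ 0 := by exact_mod_cast hG0
  have hC : Abl (Cy (Nat.card G)) := abl_cy hG0
  have hpow : ∀ g : G, g ^ Nat.card G = 1 := fun g => pow_card_eq_one'
  have hFC : vals χ ≤ Cy (Nat.card G) := vals_le fun g => chr_mem_cy hchr hG0 hpow g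
  have hiC : ∀ i, vals (θ i) ≤ Cy (Nat.card G) :=
    fun i => vals_le fun g => chr_mem_cy (hθ i).1 hG0 hpow g
  obtain ⟨ρ, hρ, -⟩ := exists_res_surj hFC hC
  have hF : Abl (vals χ) := Abl.mono hFC hC
  have := finite_Gl hF
  have hext : ∀ σ : Gl (vals χ), ∃ τ : ℂ ≃+* ℂ, ∀ z : vals χ, τ z = σ z := fun σ =>
    exists_ext hF.1 (σ : vals χ →+* vals χ)
  choose τ hτ using hext
  -- the multiplicities
  have hm : ∀ i (σ : Gl (vals χ)), ∃ a : ℤ,
      ∑ g : G, θ i g * τ σ (χ g⁻¹) = Nat.card G * a := by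
    intro i σ
    have hv : Virt (θ i) := (isChr_iff.mp (hθ i).1).virt
    obtain ⟨a, ha⟩ := hv.pr_int (irr_sigma hχ (τ σ))
    refine ⟨a, ?_⟩
    rw [pr, finsum_eq_sum_of_fintype] at ha
    rw [← ha, mul_inv_cancel_left₀ hG]
  choose m hm using hm
  have hcm : ∀ a b : Gl (vals χ), a * b = b * a := fun a b => (commGl hF).mul_comm a b
  have hinv : ∀ i, m i ∈ J (fixers (vals χ) Φ) := by
    intro i
    obtain ⟨F, hFΦ, hFv⟩ := (hθ i).2
    have hmem : fixer (vals χ) F ∈ fixers (vals χ) Φ := ⟨F, hFΦ, rfl⟩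
    refine mem_J_of_invariant hmem fun σ s hs => ?_
    have hs' : s ∈ fixer (vals χ) (vals (θ i)) := fun x hx => hs x (hFv hx)
    obtain ⟨c, hc, rfl⟩ := exists_lift hFC hC (hiC i) hρ hs'
    obtain ⟨t, ht⟩ := exists_ext hC.1 (c : Cy (Nat.card G) →+* Cy (Nat.card G))
    have h1 : ∀ g, t (θ i g) = θ i g := by
      intro g
      have h3 := hc ⟨θ i g, hiC i (mem_vals (θ i) g)⟩ (mem_vals (θ i) g)
      exact (ht ⟨θ i g, hiC i (mem_vals (θ i) g)⟩).trans (congrArg Subtype.val h3)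
    have h2 : ∀ g, τ (σ * ρ c) (χ g) = t (τ σ (χ g)) := by
      intro g
      have h3 : τ (σ * ρ c) (χ g) = (σ * ρ c) ⟨χ g, mem_vals χ g⟩ :=
        hτ (σ * ρ c) ⟨χ g, mem_vals χ g⟩
      have h4 : τ σ (χ g) = σ ⟨χ g, mem_vals χ g⟩ := hτ σ ⟨χ g, mem_vals χ g⟩
      rw [h3, h4, hcm σ (ρ c)]
      have h5 := hρ c (σ ⟨χ g, mem_vals χ g⟩)
      exact h5.trans (ht ⟨_, hFC (σ ⟨χ g, mem_vals χ g⟩).2⟩).symm
    have h3 : (Nat.card G : ℂ) * m i (σ * ρ c) = Nat.card G * m i σ := by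
      have h4 : ∀ g, θ i g * τ (σ * ρ c) (χ g⁻¹) = t (θ i g * τ σ (χ g⁻¹)) := fun g => by
        rw [map_mul, h1, h2]
      rw [← hm, Finset.sum_congr rfl fun g _ => h4 g, ← map_sum, hm, map_mul, map_natCast,
        map_intCast]
    exact_mod_cast mul_left_cancel₀ hG h3
  -- the relation
  have hrel : ∀ σ, (Nat.card G : ℂ) * ((∑ i, k i * m i σ : ℤ) : ℂ) =
      n * ∑ g : G, χ g * τ σ (χ g⁻¹) := by
    intro σ
    push_cast
    rw [Finset.mul_sum, Finset.mul_sum]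
    have h2 : ∀ g, (n : ℂ) * χ g = ∑ i, (k i : ℂ) * θ i g := by
      intro g
      have h3 := congrFun h g
      rw [Pi.smul_apply, Finset.sum_apply, nsmul_eq_mul] at h3
      rw [h3]
      exact Finset.sum_congr rfl fun i _ => by rw [Pi.smul_apply, zsmul_eq_mul]
    have h4 : ∑ g : G, (n : ℂ) * (χ g * τ σ (χ g⁻¹)) =
        ∑ g : G, ∑ i, (k i : ℂ) * (θ i g * τ σ (χ g⁻¹)) := by
      refine Finset.sum_congr rfl fun g _ => ?_
      rw [← mul_assoc, h2, Finset.sum_mul]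
      exact Finset.sum_congr rfl fun i _ => by ring
    rw [h4, Finset.sum_comm]
    refine Finset.sum_congr rfl fun i _ => ?_
    rw [← Finset.mul_sum, hm]
    ring
  have hsum : const (Gl (vals χ)) n = ∑ i, k i • m i := by
    funext σ
    rw [Finset.sum_apply]
    change (if σ = 1 then (n : ℤ) else 0) = ∑ i, k i * m i σ
    by_cases hσ : σ = 1
    · rw [if_pos hσ, hσ]
      have h3 : ∀ g, τ 1 (χ g) = χ g := fun g => hτ 1 ⟨χ g, mem_vals χ g⟩
      have h1 := hrel 1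
      simp only [h3] at h1
      rw [pair_self hχ] at h1
      have h4 : ((∑ i, k i * m i 1 : ℤ) : ℂ) = n := by
        apply mul_left_cancel₀ hG
        rw [h1, mul_comm]
      exact_mod_cast h4.symm
    · rw [if_neg hσ]
      have h2 : χ ≠ (fun g => τ σ (χ g)) := by
        intro h3
        apply hσ
        have h5 : ∀ z ∈ vals χ, τ σ z = z := by
          intro z hz
          induction hz using IntermediateField.adjoin_induction with
          | mem z hz =>
            obtain ⟨g, rfl⟩ := hz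
            exact (congrFun h3 g).symm
          | algebraMap q => rw [eq_ratCast, map_ratCast]
          | add x y _ _ hx hy => rw [map_add, hx, hy]
          | inv x _ hx => rw [map_inv₀, hx]
          | mul x y _ _ hx hy => rw [map_mul, hx, hy]
        apply AlgEquiv.ext
        intro z
        apply Subtype.ext
        exact (hτ σ z).symm.trans (h5 z z.2)
      have h3 : ∑ g : G, χ g * τ σ (χ g⁻¹) = 0 := pair_ne hχ (irr_sigma hχ (τ σ)) h2
      have h1 := hrel σ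
      rw [h3, mul_zero] at h1
      have h4 : ((∑ i, k i * m i σ : ℤ) : ℂ) = 0 := (mul_eq_zero.1 h1).resolve_left hG
      exact_mod_cast h4.symm
  rw [hsum]
  exact sum_mem fun i _ => AddSubgroup.zsmul_mem _ (hinv i) _

end main

/-- elements of the ideal as combinations -/
lemma exists_comb {B : Type} [Group B] {𝓗 : Set (Subgroup B)} {f : B → ℤ} (hf : f ∈ J 𝓗) :
    ∃ (r : ℕ) (g : Fin r → B) (H : Fin r → Subgroup B) (k : Fin r → ℤ), (∀ i, H i ∈ 𝓗) ∧
      f = ∑ i, k i • coset (g i) (H i) := by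
  induction hf using AddSubgroup.closure_induction with
  | mem f hf =>
    obtain ⟨g, H, hH, rfl⟩ := hf
    exact ⟨1, fun _ => g, fun _ => H, fun _ => 1, fun _ => hH, by simp⟩
  | zero => exact ⟨0, Fin.elim0, Fin.elim0, Fin.elim0, fun i => i.elim0, by simp⟩
  | add f f' _ _ h h' =>
    obtain ⟨r, g, H, k, h1, h2⟩ := h
    obtain ⟨r', g', H', k', h1', h2'⟩ := h'
    refine ⟨r + r', Fin.append g g', Fin.append H H', Fin.append k k', fun i => ?_, ?_⟩
    · refine Fin.addCases (fun i => ?_) (fun i => ?_) i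
      · rw [Fin.append_left]
        exact h1 i
      · rw [Fin.append_right]
        exact h1' i
    · rw [Fin.sum_univ_add]
      simp only [Fin.append_left, Fin.append_right]
      rw [h2, h2']
  | neg f _ h =>
    obtain ⟨r, g, H, k, h1, h2⟩ := h
    refine ⟨r, g, H, fun i => - k i, h1, ?_⟩
    rw [h2, ← Finset.sum_neg_distrib]
    exact Finset.sum_congr rfl fun i _ => by rw [neg_smul]

/-- an element of the ideal gives a relation between the characters -/
theorem rel_of_const_mem {E : Ext} {χ : G E → ℂ} (hχ : IsChr χ) {Φ : Set (IntermediateField ℚ ℂ)}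
    {n : ℕ} (h : const (Gl (vals χ)) n ∈ J (fixers (vals χ) Φ)) :
    ∃ (r : ℕ) (θ : Fin r → G E → ℂ) (k : Fin r → ℤ),
      (∀ i, IsChr (θ i) ∧ ∃ F ∈ Φ, vals (θ i) ≤ F) ∧ n • χ = ∑ i, k i • θ i := by
  classical
  have hF : Abl (vals χ) := abl_vals hχ
  have := finite_Gl hF
  have : Fintype (Gl (vals χ)) := Fintype.ofFinite _
  have hcm : ∀ a b : Gl (vals χ), a * b = b * a := fun a b => (commGl hF).mul_comm a b
  obtain ⟨r, γ, H, k, hH, hk⟩ := exists_comb h
  choose F hFΦ hFH using hH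
  have hext : ∀ σ : Gl (vals χ), ∃ τ : ℂ ≃+* ℂ, ∀ z : vals χ, τ z = σ z := fun σ =>
    exists_ext hF.1 (σ : vals χ →+* vals χ)
  choose τ hτ using hext
  let s : Fin r → Finset (Gl (vals χ)) := fun i => Finset.univ.filter fun σ => (γ i)⁻¹ * σ ∈ H i
  let θ : Fin r → G E → ℂ := fun i => ∑ a ∈ s i, fun g => τ a (χ g)
  have hθ : ∀ i g, θ i g = ((∑ a ∈ s i, a ⟨χ g, mem_vals χ g⟩ : vals χ) : ℂ) := by
    intro i g
    change (∑ a ∈ s i, fun g => τ a (χ g)) g = _
    rw [Finset.sum_apply]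
    have h3 : ((∑ a ∈ s i, a ⟨χ g, mem_vals χ g⟩ : vals χ) : ℂ)
        = ∑ a ∈ s i, ((a ⟨χ g, mem_vals χ g⟩ : vals χ) : ℂ) :=
      map_sum (algebraMap (vals χ) ℂ) _ _
    rw [h3]
    exact Finset.sum_congr rfl fun a _ => hτ a ⟨χ g, mem_vals χ g⟩
  have hfix : ∀ i (x : vals χ), ((∑ a ∈ s i, a x : vals χ) : ℂ) ∈ F i := by
    intro i x
    have h1 : ((∑ a ∈ s i, a x : vals χ) : ℂ) ∈ F i ⊓ vals χ := by
      refine mem_of_fixed_gen hF inf_le_right (∑ a ∈ s i, a x : vals χ).2 fun σ hσ => ?_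
      have h2 : σ ∈ H i := by
        rw [hFH i]
        intro y hy
        exact hσ y ⟨hy, y.2⟩
      change σ (∑ a ∈ s i, a x) = ∑ a ∈ s i, a x
      rw [map_sum]
      refine Finset.sum_bij (fun a _ => σ * a) (fun a ha => ?_) (fun a _ b _ hab => ?_)
        (fun b hb => ?_) fun a _ => rfl
      · rw [Finset.mem_filter] at ha ⊢
        refine ⟨Finset.mem_univ _, ?_⟩
        rw [hcm σ a, ← mul_assoc]
        exact (H i).mul_mem ha.2 h2
      · exact mul_left_cancel hab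
      · rw [Finset.mem_filter] at hb
        refine ⟨σ⁻¹ * b, ?_, mul_inv_cancel_left σ b⟩
        rw [Finset.mem_filter]
        refine ⟨Finset.mem_univ _, ?_⟩
        rw [hcm σ⁻¹ b, ← mul_assoc]
        exact (H i).mul_mem hb.2 ((H i).inv_mem h2)
    exact h1.1
  refine ⟨r, θ, k, fun i => ⟨isChr_sum _ _ fun a _ => isChr_sigma hχ (τ a), F i, hFΦ i,
    vals_le fun g => ?_⟩, ?_⟩
  · rw [hθ]
    exact hfix i _
  · funext g
    set x : vals χ := ⟨χ g, mem_vals χ g⟩ with hx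
    have h1 : (n : vals χ) * x = ∑ i, (k i : vals χ) * ∑ a ∈ s i, a x := by
      have h2 : ∑ σ : Gl (vals χ), ((const (Gl (vals χ)) n σ : ℤ) : vals χ) * σ x
          = n * x := by
        rw [Finset.sum_eq_single (1 : Gl (vals χ))]
        · have h3 : const (Gl (vals χ)) n 1 = n := if_pos rfl
          rw [h3, Int.cast_natCast]
          rfl
        · intro σ _ hσ
          have h3 : const (Gl (vals χ)) n σ = 0 := if_neg hσ
          rw [h3, Int.cast_zero, zero_mul]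
        · intro h3
          exact absurd (Finset.mem_univ _) h3
      rw [← h2, hk]
      simp only [Finset.sum_apply, Pi.smul_apply, smul_eq_mul, Int.cast_sum, Int.cast_mul,
        Finset.sum_mul]
      rw [Finset.sum_comm]
      refine Finset.sum_congr rfl fun i _ => ?_
      rw [Finset.mul_sum, Finset.sum_filter]
      refine Finset.sum_congr rfl fun σ _ => ?_
      by_cases hσ : (γ i)⁻¹ * σ ∈ H i
      · have h3 : coset (γ i) (H i) σ = 1 := if_pos hσ
        rw [h3, if_pos hσ, Int.cast_one, mul_one]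
      · have h3 : coset (γ i) (H i) σ = 0 := if_neg hσ
        rw [h3, if_neg hσ, Int.cast_zero, mul_zero, zero_mul]
    have h3 := congrArg (fun x : vals χ => (x : ℂ)) h1
    rw [Pi.smul_apply, Finset.sum_apply, nsmul_eq_mul]
    simp only [Pi.smul_apply, zsmul_eq_mul, hθ]
    have h4 : ((∑ i, (k i : vals χ) * ∑ a ∈ s i, a x : vals χ) : ℂ)
        = ∑ i, (k i : ℂ) * ((∑ a ∈ s i, a x : vals χ) : ℂ) := by
      rw [← IntermediateField.algebraMap_apply, map_sum]
      refine Finset.sum_congr rfl fun i _ => ?_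
      rw [map_mul, map_intCast]
      rfl
    rw [← h4, ← h3]
    rw [← IntermediateField.algebraMap_apply, map_mul, map_natCast]
    rfl

/-- the exact set of exponents -/
theorem exact_set {c : Pair → ℂ} (hc : IsLeading c) {L : Type} [Field L] [NumberField L]
    [IsGalois ℚ L] {χ : G (⟨ℚ, L⟩ : Ext) → ℂ} (hχ : χ ∈ Irr (G (⟨ℚ, L⟩ : Ext)))
    (Φ : Set (IntermediateField ℚ ℂ)) (n : ℕ) :
    (∃ (r : ℕ) (x : Fin r → Pair) (k : Fin r → ℤ),
      (∀ i, IsChr (x i).2 ∧ ∃ F ∈ Φ, vals (x i).2 ≤ F) ∧ LRel ⟨⟨ℚ, L⟩, χ⟩ n x k) ↔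
      InIdeal (vals χ) Φ n := by
  classical
  have := finite_G (⟨ℚ, L⟩ : Ext)
  rw [inIdeal_iff]
  constructor
  · rintro ⟨r, x, k, hx, h⟩
    let E' : Option (Fin r) → Ext := fun o => o.elim ⟨ℚ, L⟩ fun i => (x i).1
    obtain ⟨N, i1, i2, i3, hN⟩ := exists_common (fun o => (E' o).L)
    obtain ⟨f₀⟩ := hN none
    have h0 : ∀ i, Nonempty ((x i).1.L →+* N) := fun i => hN (some i)
    let f : ∀ i, (x i).1.L →+* N := fun i => (h0 i).some
    obtain ⟨X, hX, hXv, hXA⟩ := infl_Q hχ N f₀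
    choose Y hY hYv hYA using fun i => base_Q' (hx i).1 N (f i)
    have := finite_G (⟨ℚ, N⟩ : Ext)
    have hrel : LRel ⟨⟨ℚ, N⟩, X⟩ n (fun i => ⟨⟨ℚ, N⟩, Y i⟩) k := by
      intro s hs l l' hl hl'
      obtain ⟨l₀, hl₀⟩ := logTerm_summable χ hs
      choose l₀' hl₀' using fun i => logTerm_summable (x i).2 hs
      have h1 : l = l₀ := by
        rw [← pval_log (x := ⟨⟨ℚ, N⟩, X⟩) hs hl, ← pval_log (x := ⟨⟨ℚ, L⟩, χ⟩) hs hl₀, hXA]
      have h2 : ∀ i, l' i = l₀' i := by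
        intro i
        rw [← pval_log (x := ⟨⟨ℚ, N⟩, Y i⟩) hs (hl' i), ← pval_log (x := x i) hs (hl₀' i), hYA i]
      rw [h1, Finset.sum_congr rfl fun i _ => by rw [h2 i]]
      exact h s hs l₀ l₀' hl₀ hl₀'
    rw [← hXv]
    refine const_mem_of_rel hX (k := k) (θ := Y) (fun i => ⟨hY i, ?_⟩) ?_
    · obtain ⟨F, hF, hle⟩ := (hx i).2
      exact ⟨F, hF, (hYv i).trans hle⟩
    · funext g
      obtain ⟨l, hl, hlg⟩ := exists_coef_all g
      have h1 := coef_rel hrel hl.ne_zero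
      rw [hlg X (chr_of_irr hX), Finset.sum_congr rfl fun i _ => by rw [hlg (Y i) (hY i)]] at h1
      rw [Pi.smul_apply, Finset.sum_apply, nsmul_eq_mul, h1]
      exact Finset.sum_congr rfl fun i _ => by rw [Pi.smul_apply, zsmul_eq_mul]
  · intro h
    have hchr := chr_of_irr hχ
    obtain ⟨r, θ, k, hθ, hrel⟩ := rel_of_const_mem hchr h
    have h1 := cyc_rel_val (fun χ : G (⟨ℚ, L⟩ : Ext) → ℂ => pval (allInv hc) ⟨⟨ℚ, L⟩, χ⟩)
      (fun a b ha hb => (allInv hc).val_add ℚ L a b (isChr_iff.mp ha) (isChr_iff.mp hb))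
      hchr (fun i => (hθ i).1) hrel
    obtain ⟨h2, -⟩ := rel_all hc (y := ⟨⟨ℚ, L⟩, χ⟩) (x := fun i => ⟨⟨ℚ, L⟩, θ i⟩) hchr
      (fun i => (hθ i).1) h1
    exact ⟨r, fun i => ⟨⟨ℚ, L⟩, θ i⟩, k, hθ, h2⟩

end Pool.Agent.H504.CV
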